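import Pool.Agent.T9h25.GS.PieceA

set_option autoImplicit false

namespace Pool.Agent.T9h25.GS

open Relation

section emb
variable {α : Type} [DecidableEq α] (f : Bool → α)

/-- renaming of the actions -/
def mp (w : List (Ltr Bool)) : List (Ltr α) := w.map fun l => (f l.1, l.2)

variable {f}

omit [DecidableEq α] in
theorem mp_append (u v : List (Ltr Bool)) : mp f (u ++ v) = mp f u ++ mp f v := by simp [mp]

omit [DecidableEq α] in
theorem mp_cons (l : Ltr Bool) (v : List (Ltr Bool)) : mp f (l :: v) = (f l.1, l.2) :: mp f v := rfl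

omit [DecidableEq α] in
theorem mp_inj (hf : Function.Injective f) : Function.Injective (mp f) := by
  refine List.map_injective_iff.2 ?_
  intro l m h
  simp only [Prod.mk.injEq] at h
  exact Prod.ext (hf h.1) h.2

omit [DecidableEq α] in
theorem mp_eq_append {w : List (Ltr Bool)} {u v : List (Ltr α)} (h : mp f w = u ++ v) :
    ∃ w1 w2, w = w1 ++ w2 ∧ u = mp f w1 ∧ v = mp f w2 := by
  obtain ⟨w1, w2, h1, h2, h3⟩ := List.map_eq_append_iff.1 h
  exact ⟨w1, w2, h1, h2.symm, h3.symm⟩

omit [DecidableEq α] in
theorem mp_eq_cons {w : List (Ltr Bool)} {l : Ltr α} {v : List (Ltr α)} (h : mp f w = l :: v) :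
    ∃ l1 w1, w = l1 :: w1 ∧ l = (f l1.1, l1.2) ∧ v = mp f w1 := by
  obtain ⟨l1, w1, h1, h2, h3⟩ := List.map_eq_cons_iff.1 h
  exact ⟨l1, w1, h1, h2.symm, h3.symm⟩

omit [DecidableEq α] in
theorem mp_two (k : ℕ) (c : Bool) : mp f (List.replicate k [(c, false), (c, true)]).flatten =
    (List.replicate k [(f c, false), (f c, true)]).flatten := by
  induction k with
  | zero => rfl
  | succ k ih =>
    rw [List.replicate_succ, List.replicate_succ, List.flatten_cons, List.flatten_cons, mp_append, ih]
    rfl

theorem filter_mp (hf : Function.Injective f) (w : List (Ltr Bool)) (c : Bool) :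
    (mp f w).filter (fun l => decide (l.1 = f c)) = mp f (w.filter fun l => decide (l.1 = c)) := by
  induction w with
  | nil => rfl
  | cons l w ih =>
    rw [mp_cons]
    by_cases h : l.1 = c
    · rw [List.filter_cons_of_pos (by simp [h]), List.filter_cons_of_pos (by simp [h]), ih, mp_cons]
    · have h' : f l.1 ≠ f c := fun h'' => h (hf h'')
      rw [List.filter_cons_of_neg (by simpa using h'), List.filter_cons_of_neg (by simpa using h), ih]

theorem filter_mp' (w : List (Ltr Bool)) (x : α) (hx : ∀ c, f c ≠ x) :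
    (mp f w).filter (fun l => decide (l.1 = x)) = [] := by
  induction w with
  | nil => rfl
  | cons l w ih =>
    rw [mp_cons, List.filter_cons_of_neg (by simpa using hx l.1), ih]

theorem isST_mp (hf : Function.Injective f) (w : List (Ltr Bool)) : IsST (mp f w) ↔ IsST w := by
  constructor
  · intro h c
    obtain ⟨k, hk⟩ := h (f c)
    rw [filter_mp hf, ← mp_two] at hk
    exact ⟨k, mp_inj hf hk⟩
  · intro h x
    by_cases hx : ∃ c, f c = x
    · obtain ⟨c, rfl⟩ := hx
      obtain ⟨k, hk⟩ := h c
      exact ⟨k, by rw [filter_mp hf, hk, mp_two]⟩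
    · push Not at hx
      exact ⟨0, by rw [filter_mp' w x hx]; rfl⟩

omit [DecidableEq α] in
theorem shuf_mp {u v w : List (Ltr Bool)} (h : Shuf u v w) : Shuf (mp f u) (mp f v) (mp f w) := by
  induction h with
  | nil => exact .nil
  | left l _ ih => exact .left _ ih
  | right l _ ih => exact .right _ ih

omit [DecidableEq α] in
theorem shuf_of_mp {w : List (Ltr Bool)} {u v : List (Ltr α)} (h : Shuf u v (mp f w)) :
    ∃ u1 v1, u = mp f u1 ∧ v = mp f v1 ∧ Shuf u1 v1 w := by
  induction w generalizing u v with
  | nil =>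
    obtain ⟨rfl, rfl⟩ := h.nil_iff
    exact ⟨[], [], rfl, rfl, .nil⟩
  | cons l w ih =>
    rw [mp_cons] at h
    cases h with
    | left _ h =>
      obtain ⟨u1, v1, rfl, rfl, h1⟩ := ih h
      exact ⟨l :: u1, v1, rfl, rfl, .left l h1⟩
    | right _ h =>
      obtain ⟨u1, v1, rfl, rfl, h1⟩ := ih h
      exact ⟨u1, l :: v1, rfl, rfl, .right l h1⟩

/-- the restriction of an expression to two actions -/
def res (f : Bool → α) : GExpr α → GExpr Bool
  | .eps => .eps
  | .act c => if c = f false then .act false else if c = f true then .act true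
      else .conj (.act false) (.act true)
  | .seq e e' => .seq (res f e) (res f e')
  | .alt e e' => .alt (res f e) (res f e')
  | .conj e e' => .conj (res f e) (res f e')
  | .par e e' => .par (res f e) (res f e')
  | .star e => .star (res f e)

theorem act_mp (hf : Function.Injective f) (w : List (Ltr Bool)) (c : Bool) :
    mp f w = [(f c, false), (f c, true)] ↔ w = [(c, false), (c, true)] := by
  have : ([(f c, false), (f c, true)] : List (Ltr α)) = mp f [(c, false), (c, true)] := rfl
  rw [this]
  exact (mp_inj hf).eq_iff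

theorem res_lang (hf : Function.Injective f) (e : GExpr α) :
    ∀ w, w ∈ (res f e).lang ↔ mp f w ∈ e.lang := by
  induction e with
  | eps =>
    intro w
    change w = [] ↔ mp f w = []
    simp [mp]
  | act c =>
    intro w
    change _ ↔ mp f w = [(c, false), (c, true)]
    unfold res
    by_cases h0 : c = f false
    · rw [if_pos h0, h0, act_mp hf]; rfl
    · rw [if_neg h0]
      by_cases h1 : c = f true
      · rw [if_pos h1, h1, act_mp hf]; rfl
      · rw [if_neg h1]
        constructor
        · rintro ⟨h2, h3⟩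
          have h2 : w = [(false, false), (false, true)] := h2
          have h3 : w = [(true, false), (true, true)] := h3
          rw [h2] at h3
          simp at h3
        · intro h2
          exfalso
          obtain ⟨l1, w1, rfl, h3, _⟩ := mp_eq_cons h2
          have h4 : c = f l1.1 := congrArg Prod.fst h3
          cases h5 : l1.1
          · rw [h5] at h4; exact h0 h4
          · rw [h5] at h4; exact h1 h4
  | seq e e' ihe ihf =>
    intro w
    constructor
    · intro h
      obtain ⟨u, hu, v, hv, rfl⟩ := Language.mem_mul.1 h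
      rw [mp_append]
      exact Language.mem_mul.2 ⟨_, (ihe u).1 hu, _, (ihf v).1 hv, rfl⟩
    · intro h
      obtain ⟨u, hu, v, hv, huv⟩ := Language.mem_mul.1 h
      obtain ⟨w1, w2, rfl, rfl, rfl⟩ := mp_eq_append huv.symm
      exact Language.mem_mul.2 ⟨_, (ihe w1).2 hu, _, (ihf w2).2 hv, rfl⟩
  | alt e e' ihe ihf =>
    intro w
    exact or_congr (ihe w) (ihf w)
  | conj e e' ihe ihf =>
    intro w
    exact and_congr (ihe w) (ihf w)
  | par e e' ihe ihf =>
    intro w
    constructor
    · rintro ⟨h1, u, hu, v, hv, h2⟩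
      exact ⟨(isST_mp hf w).2 h1, _, (ihe u).1 hu, _, (ihf v).1 hv, shuf_mp h2⟩
    · rintro ⟨h1, u, hu, v, hv, h2⟩
      obtain ⟨u1, v1, rfl, rfl, h3⟩ := shuf_of_mp h2
      exact ⟨(isST_mp hf w).1 h1, _, (ihe u1).2 hu, _, (ihf v1).2 hv, h3⟩
  | star e ihe =>
    intro w
    constructor
    · intro h
      obtain ⟨L, rfl, hL⟩ := Language.mem_kstar.1 h
      clear h
      induction L with
      | nil => exact Language.mem_kstar.2 ⟨[], rfl, by simp⟩
      | cons u L ih =>
        rw [List.flatten_cons, mp_append]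
        obtain ⟨L', h1, h2⟩ := Language.mem_kstar.1 (ih fun y hy => hL y (by simp [hy]))
        refine Language.mem_kstar.2 ⟨mp f u :: L', by rw [h1, List.flatten_cons], ?_⟩
        intro y hy
        rcases List.mem_cons.1 hy with rfl | hy
        · exact (ihe u).1 (hL u (by simp))
        · exact h2 y hy
    · intro h
      obtain ⟨L, hw, hL⟩ := Language.mem_kstar.1 h
      clear h
      induction L generalizing w with
      | nil =>
        have : w = [] := by simpa [mp] using hw
        rw [this]
        exact Language.mem_kstar.2 ⟨[], rfl, by simp⟩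
      | cons u L ih =>
        rw [List.flatten_cons] at hw
        obtain ⟨w1, w2, rfl, h1, h2⟩ := mp_eq_append hw
        obtain ⟨L', h3, h4⟩ := Language.mem_kstar.1
          (ih w2 h2.symm (fun y hy => hL y (by simp [hy])))
        refine Language.mem_kstar.2 ⟨w1 :: L', by rw [h3, List.flatten_cons], ?_⟩
        intro y hy
        rcases List.mem_cons.1 hy with rfl | hy
        · exact (ihe _).2 (by rw [← h1]; exact hL u (by simp))
        · exact h4 y hy

theorem many (α : Type) [Finite α] [DecidableEq α] [Nontrivial α] :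
    ∃ L : Language (Ltr α), L.IsRegular ∧ (∀ w ∈ L, IsST w) ∧ ThetaClosed L ∧
      ∀ e : GExpr α, e.lang ≠ L := by
  obtain ⟨a, b, hab⟩ := exists_pair_ne α
  let f : Bool → α := fun c => if c then b else a
  have hf : Function.Injective f := by
    intro c d h
    cases c <;> cases d
    · rfl
    · exact absurd h hab
    · exact absurd h.symm hab
    · rfl
  obtain ⟨r1, r2, r3, r4⟩ := final
  refine ⟨{w' | ∃ w ∈ LL, w' = mp f w}, ?_, ?_, ?_, ?_⟩
  · have f1 : Finite (Set.range LL.leftQuotient) := r1.finite_range_leftQuotient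
    refine reg_of_map (T := Set (Set.range LL.leftQuotient)) (fun w' => {q | ∃ w, w' = mp f w ∧
      (q : Language (Ltr Bool)) = LL.leftQuotient w}) ?_
    intro w w' e z hz
    obtain ⟨v, hv, h1⟩ := hz
    obtain ⟨w1, w2, rfl, rfl, rfl⟩ := mp_eq_append h1.symm
    have hq : (⟨LL.leftQuotient w1, ⟨w1, rfl⟩⟩ : Set.range LL.leftQuotient) ∈
        {q : Set.range LL.leftQuotient | ∃ w, mp f w1 = mp f w ∧
        (q : Language (Ltr Bool)) = LL.leftQuotient w} := ⟨w1, rfl, rfl⟩
    have e : {q : Set.range LL.leftQuotient | ∃ w, mp f w1 = mp f w ∧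
        (q : Language (Ltr Bool)) = LL.leftQuotient w} =
        {q : Set.range LL.leftQuotient | ∃ w, w' = mp f w ∧
        (q : Language (Ltr Bool)) = LL.leftQuotient w} := e
    rw [e] at hq
    obtain ⟨w1', h2, h3⟩ := hq
    have h3 : LL.leftQuotient w1 = LL.leftQuotient w1' := h3
    have h4 : w2 ∈ LL.leftQuotient w1 := hv
    rw [h3] at h4
    exact ⟨w1' ++ w2, h4, by rw [h2, mp_append]⟩
  · rintro _ ⟨w, hw, rfl⟩
    exact (isST_mp hf w).2 (r2 w hw)
  · rintro _ v' ⟨w, hw, rfl⟩ hs
    generalize hx : mp f w = x at hs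
    obtain ⟨p, r, l, m, hr⟩ := hs
    obtain ⟨p1, w2, rfl, rfl, h1⟩ := mp_eq_append hx
    obtain ⟨l1, w3, rfl, rfl, h2⟩ := mp_eq_cons h1.symm
    obtain ⟨m1, r1, rfl, rfl, rfl⟩ := mp_eq_cons h2.symm
    have hr' : Rule l1 m1 := ⟨fun h => hr.1 (by simp [h]), hr.2⟩
    refine ⟨p1 ++ m1 :: l1 :: r1, r3 _ _ hw (Step.mk p1 r1 l1 m1 hr'), ?_⟩
    rw [mp_append, mp_cons, mp_cons]
  · intro e he
    refine r4 (res f e) ?_
    ext w
    rw [res_lang hf, he]
    constructor
    · rintro ⟨v, hv, h⟩
      rw [mp_inj hf h]; exact hv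
    · intro h
      exact ⟨w, h, rfl⟩

end emb

/-! ### one action -/

section one
variable {α : Type} [DecidableEq α]

/-- `a` repeated -/
def rep (a : α) : ℕ → GExpr α
  | 0 => .eps
  | k + 1 => .seq (.act a) (rep a k)

theorem rep_lang (a : α) (k : ℕ) (w : List (Ltr α)) :
    w ∈ (rep a k).lang ↔ w = pw k [(a, false), (a, true)] := by
  induction k generalizing w with
  | zero => exact Iff.rfl
  | succ k ih =>
    rw [pw_succ]
    constructor
    · intro h
      obtain ⟨u, hu, v, hv, rfl⟩ := Language.mem_mul.1 h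
      have hu : u = [(a, false), (a, true)] := hu
      rw [hu, (ih v).1 hv]
    · rintro rfl
      exact Language.mem_mul.2 ⟨_, rfl, _, (ih _).2 rfl, rfl⟩

/-- finite unions -/
def uni (a : α) (s : List (GExpr α)) : GExpr α := s.foldr .alt (.conj (.act a) .eps)

theorem uni_lang (a : α) (s : List (GExpr α)) (w : List (Ltr α)) :
    w ∈ (uni a s).lang ↔ ∃ e ∈ s, w ∈ e.lang := by
  induction s with
  | nil =>
    simp only [List.not_mem_nil, false_and, exists_false, iff_false]
    rintro ⟨h1, h2⟩
    have h1 : w = [(a, false), (a, true)] := h1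
    have h2 : w = [] := h2
    rw [h2] at h1
    simp at h1
  | cons e s ih =>
    change (w ∈ e.lang ∨ w ∈ (uni a s).lang) ↔ _
    rw [ih]
    simp

theorem star_rep (a : α) (p : ℕ) (w : List (Ltr α)) :
    w ∈ (GExpr.star (rep a p)).lang ↔ ∃ t, w = pw (t * p) [(a, false), (a, true)] := by
  constructor
  · intro h
    obtain ⟨L, rfl, hL⟩ := Language.mem_kstar.1 h
    clear h
    induction L with
    | nil => exact ⟨0, by simp [pw_zero]⟩
    | cons u L ih =>
      obtain ⟨t, ht⟩ := ih fun y hy => hL y (by simp [hy])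
      refine ⟨t + 1, ?_⟩
      rw [List.flatten_cons, ht, (rep_lang a p u).1 (hL u (by simp)), ← pw_add]
      congr 1; ring
  · rintro ⟨t, rfl⟩
    refine Language.mem_kstar.2 ⟨List.replicate t (pw p [(a, false), (a, true)]), ?_, ?_⟩
    · change _ = pw t (pw p [(a, false), (a, true)])
      rw [pw_mul]
    · intro y hy
      rw [List.eq_of_mem_replicate hy]
      exact (rep_lang a p _).2 rfl

theorem one (α : Type) [DecidableEq α] [Nonempty α] [Subsingleton α] (L : Language (Ltr α))
    (hL : L.IsRegular) (hst : ∀ w ∈ L, IsST w) : ∃ e : GExpr α, e.lang = L := by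
  classical
  obtain ⟨a⟩ := ‹Nonempty α›
  have hw : ∀ w ∈ L, ∃ k, w = pw k [(a, false), (a, true)] := by
    intro w hw
    obtain ⟨k, hk⟩ := hst w hw a
    refine ⟨k, ?_⟩
    rw [List.filter_eq_self.2 (fun l _ => by simpa using Subsingleton.elim l.1 a)] at hk
    exact hk
  have f1 : Finite (Set.range L.leftQuotient) := hL.finite_range_leftQuotient
  obtain ⟨i, j, hij, heq⟩ := Finite.exists_ne_map_eq_of_infinite
    (fun k : ℕ => (⟨L.leftQuotient (pw k [(a, false), (a, true)]), ⟨_, rfl⟩⟩ :
      Set.range L.leftQuotient))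
  wlog hlt : i < j generalizing i j with H
  · exact H j i (Ne.symm hij) heq.symm (by omega)
  obtain ⟨p, rfl⟩ : ∃ p, j = i + p := ⟨j - i, by omega⟩
  have hp : 1 ≤ p := by omega
  have heq : L.leftQuotient (pw i [(a, false), (a, true)]) =
      L.leftQuotient (pw i [(a, false), (a, true)] ++ pw p [(a, false), (a, true)]) := by
    have := congrArg Subtype.val heq
    rw [← pw_add]
    exact this
  have hper : ∀ t r, pw (i + (t * p + r)) [(a, false), (a, true)] ∈ L ↔
      pw (i + r) [(a, false), (a, true)] ∈ L := by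
    intro t r
    have h3 : ∀ t, L.leftQuotient (pw i [(a, false), (a, true)] ++
        pw t (pw p [(a, false), (a, true)])) = L.leftQuotient (pw i [(a, false), (a, true)]) := by
      intro t
      induction t with
      | zero => simp [pw_zero]
      | succ t ih =>
        rw [pw_succ', ← List.append_assoc, Language.leftQuotient_append, ih,
          ← Language.leftQuotient_append, ← heq]
    have h4 : pw r [(a, false), (a, true)] ∈ L.leftQuotient (pw i [(a, false), (a, true)] ++
        pw t (pw p [(a, false), (a, true)])) ↔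
        pw r [(a, false), (a, true)] ∈ L.leftQuotient (pw i [(a, false), (a, true)]) := by
      rw [h3]
    rw [Language.mem_leftQuotient, Language.mem_leftQuotient, pw_mul, List.append_assoc,
      ← pw_add, ← pw_add, ← pw_add] at h4
    exact h4
  refine ⟨uni a (((List.range i).filter (fun k => pw k [(a, false), (a, true)] ∈ L)).map (rep a) ++
    ((List.range p).filter (fun r => pw (i + r) [(a, false), (a, true)] ∈ L)).map
      (fun r => .seq (rep a (i + r)) (.star (rep a p)))), ?_⟩
  ext w
  rw [uni_lang]
  constructor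
  · rintro ⟨e, he, h⟩
    rcases List.mem_append.1 he with he | he
    · obtain ⟨k, hk, rfl⟩ := List.mem_map.1 he
      rw [(rep_lang a k w).1 h]
      simpa using (List.mem_filter.1 hk).2
    · obtain ⟨r, hr, rfl⟩ := List.mem_map.1 he
      obtain ⟨u, hu, v, hv, rfl⟩ := Language.mem_mul.1 h
      obtain ⟨t, ht⟩ := (star_rep a p v).1 hv
      rw [(rep_lang a _ u).1 hu, ht, ← pw_add]
      have h5 : i + r + t * p = i + (t * p + r) := by ring
      rw [h5, hper]
      simpa using (List.mem_filter.1 hr).2
  · intro h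
    obtain ⟨k, rfl⟩ := hw w h
    by_cases hk : k < i
    · refine ⟨rep a k, List.mem_append_left _ (List.mem_map.2 ⟨k, List.mem_filter.2 ⟨by simpa using hk,
        by simpa using h⟩, rfl⟩), (rep_lang a k _).2 rfl⟩
    · have h6 : k = i + (((k - i) / p) * p + (k - i) % p) := by
        have := Nat.div_add_mod (k - i) p
        rw [mul_comm] at this
        omega
      have h7 : (k - i) % p < p := Nat.mod_lt _ hp
      rw [h6] at h
      refine ⟨.seq (rep a (i + (k - i) % p)) (.star (rep a p)), List.mem_append_right _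
        (List.mem_map.2 ⟨(k - i) % p, List.mem_filter.2 ⟨by simpa using h7, ?_⟩, rfl⟩), ?_⟩
      · simpa using (hper _ _).1 h
      · refine Language.mem_mul.2 ⟨_, (rep_lang a _ _).2 rfl, _, (star_rep a p _).2 ⟨(k - i) / p, rfl⟩, ?_⟩
        rw [← pw_add]
        congr 1
        omega

end one

end Pool.Agent.T9h25.GS
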