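import Pool.Agent.T9h25.GS.Theta

set_option autoImplicit false

namespace Pool.Agent.T9h25.GS

open Relation

/-! ### powers -/

theorem pw_zero {β : Type} (w : List β) : pw 0 w = [] := rfl

theorem pw_succ {β : Type} (n : ℕ) (w : List β) : pw (n + 1) w = w ++ pw n w := by
  simp [pw, List.replicate_succ]

theorem pw_add {β : Type} (m n : ℕ) (w : List β) : pw (m + n) w = pw m w ++ pw n w := by
  rw [pw, pw, pw, List.replicate_add, List.flatten_append]

theorem pw_one {β : Type} (w : List β) : pw 1 w = w := by simp [pw]

theorem pw_succ' {β : Type} (n : ℕ) (w : List β) : pw (n + 1) w = pw n w ++ w := by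
  rw [pw_add, pw_one]

theorem pw_mul {β : Type} (m n : ℕ) (w : List β) : pw m (pw n w) = pw (m * n) w := by
  induction m with
  | zero => simp [pw_zero]
  | succ m ih => rw [pw_succ, ih, ← pw_add]; congr 1; ring

theorem pw_nil {β : Type} (n : ℕ) : pw n ([] : List β) = [] := by
  induction n with
  | zero => rfl
  | succ n ih => rw [pw_succ, ih, List.append_nil]

theorem pw_count {β : Type} [BEq β] (n : ℕ) (w : List β) (x : β) :
    (pw n w).count x = n * w.count x := by
  induction n with
  | zero => simp [pw_zero]
  | succ n ih => rw [pw_succ, List.count_append, ih]; ring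

theorem pw_length {β : Type} (n : ℕ) (w : List β) : (pw n w).length = n * w.length := by
  induction n with
  | zero => simp [pw_zero]
  | succ n ih => rw [pw_succ, List.length_append, ih]; ring

theorem mem_pw {β : Type} {n : ℕ} {w : List β} {x : β} (h : x ∈ pw n w) : x ∈ w := by
  induction n with
  | zero => simp [pw_zero] at h
  | succ n ih =>
    rw [pw_succ, List.mem_append] at h
    exact h.elim id ih

theorem pw_rot {β : Type} (s : ℕ) (a b : List β) :
    a ++ (pw s (b ++ a) ++ b) = pw (s + 1) (a ++ b) := by
  induction s with
  | zero => simp [pw_zero, pw_one]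
  | succ s ih =>
    rw [pw_succ (s + 1) (a ++ b), ← ih, pw_succ]
    simp

theorem red_pw {v T q : List (Ltr Bool)} (h : Red (v ++ T) (T ++ q)) (s : ℕ) :
    Red (pw s v ++ T) (T ++ pw s q) := by
  induction s with
  | zero => simpa [pw_zero] using ReflTransGen.refl
  | succ s ih =>
    rw [pw_succ, pw_succ, List.append_assoc]
    refine (ih.left v).trans ?_
    have := h.right (pw s q)
    simpa [List.append_assoc] using this

/-! ### alternating words -/

/-- the alternating word of length `n` over the letters of `a`, beginning with `(a, c)` -/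
def altw : Bool → ℕ → List (Ltr Bool)
  | _, 0 => []
  | c, n + 1 => (false, c) :: altw (!c) n

/-- the word of two letters beginning with `(a, c)` -/
def tl (c : Bool) : List (Ltr Bool) := [(false, c), (false, !c)]

theorem altw_two (c : Bool) (m n : ℕ) : altw c (2 * m + n) = pw m (tl c) ++ altw c n := by
  induction m with
  | zero => simp [pw_zero]
  | succ m ih =>
    have : 2 * (m + 1) + n = (2 * m + n) + 1 + 1 := by ring
    rw [this]
    simp only [altw, Bool.not_not, ih, pw_succ, tl, List.cons_append, List.nil_append]

theorem eq_altw (w : List (Ltr Bool)) (hw : ∀ l ∈ w, l.1 = false) (s s' : Bool → Bool)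
    (h : Run s w s') : w = altw (s false) w.length := by
  induction w generalizing s with
  | nil => rfl
  | cons l w ih =>
    obtain ⟨h1, h2⟩ := h
    have hl : l.1 = false := hw l (by simp)
    have := ih (fun m hm => hw m (by simp [hm])) _ h2
    rw [hl, Function.update_self] at this
    rw [hl] at h1
    simp only [List.length_cons, altw]
    rw [h1, ← this]
    congr 1
    exact Prod.ext hl rfl

theorem run_par (w : List (Ltr Bool)) (hw : ∀ l ∈ w, l.1 = false) (s s' : Bool → Bool)
    (h : Run s w s') : s' false = s false ↔ Even w.length := by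
  induction w generalizing s with
  | nil => simp only [Run] at h; subst h; simp
  | cons l w ih =>
    obtain ⟨h1, h2⟩ := h
    have hl : l.1 = false := hw l (by simp)
    have := ih (fun m hm => hw m (by simp [hm])) _ h2
    rw [hl, Function.update_self] at this
    rw [hl] at h1
    rw [List.length_cons, Nat.even_add_one, ← this, h1]
    cases l.2 <;> cases s' false <;> simp

theorem pump_altw (s : Bool → Bool) (ρ η : List (Ltr Bool)) (hρ : ∀ l ∈ ρ, l.1 = false)
    (hη : ∀ l ∈ η, l.1 = false) (hne : η ≠ []) (h : ∀ t, ∃ s', Run s (ρ ++ pw t η) s') :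
    ∃ μ, η.length = 2 * μ ∧ 1 ≤ μ ∧ ∀ t, ρ ++ pw t η = pw (t * μ) (tl (s false)) ++ ρ := by
  have heven : Even η.length := by
    obtain ⟨s', h2⟩ := h 2
    rw [pw_succ, pw_one, run_append, ] at h2
    obtain ⟨m, h1, h2⟩ := h2
    rw [run_append] at h2
    obtain ⟨m', h2, h3⟩ := h2
    have e1 := eq_altw η hη m m' h2
    have e2 := eq_altw η hη m' s' h3
    rw [← run_par η hη m m' h2]
    obtain ⟨k, hk⟩ : ∃ k, η.length = k + 1 := ⟨η.length - 1, by
      have := List.length_pos_iff.2 hne; omega⟩
    rw [hk] at e1 e2
    rw [e1] at e2
    simp only [altw, List.cons.injEq, Prod.mk.injEq, true_and] at e2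
    exact e2.1.symm
  obtain ⟨μ, hμ⟩ := heven
  have hμ' : η.length = 2 * μ := by omega
  refine ⟨μ, hμ', ?_, fun t => ?_⟩
  · have := List.length_pos_iff.2 hne
    omega
  · obtain ⟨s', h1⟩ := h t
    have hall : ∀ l ∈ ρ ++ pw t η, l.1 = false := by
      intro l hl
      rcases List.mem_append.1 hl with hl | hl
      · exact hρ l hl
      · exact hη l (mem_pw hl)
    rw [eq_altw _ hall s s' h1]
    rw [run_append] at h1
    obtain ⟨m, h1, _⟩ := h1
    conv_rhs => rw [eq_altw ρ hρ s m h1]
    rw [← altw_two]
    congr 1
    rw [List.length_append, pw_length, hμ']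
    ring

/-! ### counting -/

theorem run_count {s s' : Bool → Bool} {w : List (Ltr Bool)} (h : Run s w s') (x : Bool) :
    w.count (x, false) + (if s x then 1 else 0) = w.count (x, true) + (if s' x then 1 else 0) := by
  induction w generalizing s with
  | nil => simp only [Run] at h; subst h; simp
  | cons l w ih =>
    obtain ⟨h1, h2⟩ := h
    have := ih h2
    simp only [List.count_cons]
    by_cases hx : l.1 = x
    · subst hx
      rw [Function.update_self] at this
      rw [h1]
      obtain ⟨l1, l2⟩ := l
      cases l2
      · simp at this ⊢; omega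
      · simp at this ⊢; omega
    · rw [Function.update_of_ne (Ne.symm hx)] at this
      have e1 : ¬ (l = (x, false)) := fun h => hx (by rw [h])
      have e2 : ¬ (l = (x, true)) := fun h => hx (by rw [h])
      simp only [beq_iff_eq, e1, e2, if_false, Nat.add_zero]
      exact this

theorem Step.count {u v : List (Ltr Bool)} (h : Step u v) (l : Ltr Bool) :
    u.count l = v.count l := by
  obtain ⟨p, r, a, b, _⟩ := h
  simp only [List.count_append, List.count_cons]
  omega

theorem Red.count {u v : List (Ltr Bool)} (h : Red u v) (l : Ltr Bool) :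
    u.count l = v.count l := by
  induction h with
  | refl => rfl
  | tail _ h ih => rw [ih, h.count]

/-! ### moving letters -/

theorem term_left (x : Bool) (w : List (Ltr Bool)) (hw : ∀ l ∈ w, l.1 ≠ x) :
    Red (w ++ [(x, true)]) ((x, true) :: w) := by
  induction w with
  | nil => exact .refl
  | cons l w ih =>
    have h1 := (ih fun m hm => hw m (by simp [hm])).left [l]
    refine h1.trans (.single ?_)
    have hr : Rule l (x, true) := by
      refine ⟨hw l (by simp), ?_⟩
      cases l.2 <;> simp
    exact Step.mk [] w l (x, true) hr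

theorem start_right (x : Bool) (w : List (Ltr Bool)) (hw : ∀ l ∈ w, l.1 ≠ x) :
    Red ((x, false) :: w) (w ++ [(x, false)]) := by
  induction w with
  | nil => exact .refl
  | cons l w ih =>
    have h1 := (ih fun m hm => hw m (by simp [hm])).left [l]
    have hr : Rule (x, false) l := by
      refine ⟨(hw l (by simp)).symm, ?_⟩
      cases l.2 <;> simp
    exact (ReflTransGen.single (Step.mk [] w (x, false) l hr)).trans h1

theorem pw_xx_succ (n : ℕ) : pw (n + 1) xx = (false, true) :: (pw n aa ++ [(false, false)]) := by
  induction n with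
  | zero => simp [pw_one, pw_zero, xx]
  | succ n ih =>
    rw [pw_succ (n + 1), ih, pw_succ]
    simp [xx, aa]

theorem aa_fst {n : ℕ} {l : Ltr Bool} (h : l ∈ pw n aa) : l.1 ≠ true := by
  have := mem_pw h
  simp only [aa, List.mem_cons, List.not_mem_nil, or_false] at this
  rcases this with rfl | rfl <;> simp

theorem red_BB (N : ℕ) (hN : 1 ≤ N) : Red (BB N) (TT ++ QQ N) := by
  obtain ⟨n, rfl⟩ : ∃ n, N = n + 1 := ⟨N - 1, by omega⟩
  have h1 := term_left true (pw n aa ++ [(false, false)]) (by
    intro l hl
    rcases List.mem_append.1 hl with hl | hl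
    · exact aa_fst hl
    · simp only [List.mem_singleton] at hl; subst hl; simp)
  have h2 := term_left false [(true, false), (true, true), (true, false)] (by
    intro l hl
    simp only [List.mem_cons, List.not_mem_nil, or_false] at hl
    rcases hl with rfl | rfl | rfl <;> simp)
  have h3 := start_right true (pw n aa ++ [(false, false)]) (by
    intro l hl
    rcases List.mem_append.1 hl with hl | hl
    · exact aa_fst hl
    · simp only [List.mem_singleton] at hl; subst hl; simp)
  have g1 := h1.ctx [(false, true)] ([(true, false), (true, true), (true, false)] ++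
    ((false, true) :: (pw n aa ++ [(false, false)])))
  have g2 := h2.ctx ([(false, true), (true, true)] ++ (pw n aa ++ [(false, false)]))
    (pw n aa ++ [(false, false)])
  have g3 := h3.left ([(false, true), (true, true)] ++ (pw n aa ++ [(false, false)]) ++
    [(false, true), (true, false), (true, true)])
  have e0 : BB (n + 1) = [(false, true)] ++ (pw n aa ++ [(false, false)] ++ [(true, true)]) ++
    ([(true, false), (true, true), (true, false)] ++
    ((false, true) :: (pw n aa ++ [(false, false)]))) := by
    simp only [BB, pw_xx_succ, yy]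
    simp
  have e1 : TT ++ QQ (n + 1) = [(false, true), (true, true)] ++ (pw n aa ++ [(false, false)]) ++
    [(false, true), (true, false), (true, true)] ++
      (pw n aa ++ [(false, false)] ++ [(true, false)]) := by
    simp only [TT, QQ, pw_succ', bb, aa, SS, Nat.add_sub_cancel]
    simp
  rw [e0, e1]
  refine g1.trans ?_
  have e2 : [(false, true)] ++ ((true, true) :: (pw n aa ++ [(false, false)])) ++
      ([(true, false), (true, true), (true, false)] ++
        ((false, true) :: (pw n aa ++ [(false, false)]))) =
      ([(false, true), (true, true)] ++ (pw n aa ++ [(false, false)])) ++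
      ([(true, false), (true, true), (true, false)] ++ [(false, true)]) ++
      (pw n aa ++ [(false, false)]) := by simp
  rw [e2]
  refine g2.trans ?_
  have e3 : ([(false, true), (true, true)] ++ (pw n aa ++ [(false, false)])) ++
      ((false, true) :: [(true, false), (true, true), (true, false)]) ++
      (pw n aa ++ [(false, false)]) =
      ([(false, true), (true, true)] ++ (pw n aa ++ [(false, false)]) ++
        [(false, true), (true, false), (true, true)]) ++
        ((true, false) :: (pw n aa ++ [(false, false)])) := by simp
  rw [e3]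
  exact g3

/-- the sequential form of a block -/
def WW (N : ℕ) : List (Ltr Bool) := pw N aa ++ (bb ++ (pw N aa ++ bb))

theorem red_BB_TT (N : ℕ) (hN : 1 ≤ N) : Red (BB N ++ TT) (TT ++ WW N) := by
  refine ((red_BB N hN).right TT).trans (.single ?_)
  obtain ⟨n, rfl⟩ : ∃ n, N = n + 1 := ⟨N - 1, by omega⟩
  have hr : Rule ((true, false) : Ltr Bool) (false, true) := by
    refine ⟨by simp, by simp⟩
  have := Step.mk (TT ++ (pw (n + 1) aa ++ (bb ++ (pw n aa ++ [(false, false)])))) [(true, true)]
    (true, false) (false, true) hr
  have e1 : TT ++ QQ (n + 1) ++ TT = TT ++ (pw (n + 1) aa ++ (bb ++ (pw n aa ++ [(false, false)]))) ++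
      (true, false) :: (false, true) :: [(true, true)] := by
    simp [QQ, TT, SS]
  have e2 : TT ++ WW (n + 1) = TT ++ (pw (n + 1) aa ++ (bb ++ (pw n aa ++ [(false, false)]))) ++
      (false, true) :: (true, false) :: [(true, true)] := by
    simp [WW, TT, bb, aa, pw_succ' n]
  rw [e1, e2]
  exact this

theorem red_BBs (N ℓ : ℕ) (hN : 1 ≤ N) : Red (pw ℓ (BB N) ++ TT) (TT ++ pw ℓ (WW N)) :=
  red_pw (red_BB_TT N hN) ℓ

/-! ### sequential words -/

/-- the sequential word of a list of actions -/
def EE (L : List Bool) : List (Ltr Bool) := (L.map fun c => [(c, false), (c, true)]).flatten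

theorem EE_append (L L' : List Bool) : EE (L ++ L') = EE L ++ EE L' := by simp [EE]

theorem EE_cons (c : Bool) (L : List Bool) : EE (c :: L) = (c, false) :: (c, true) :: EE L := by
  simp [EE]

theorem EE_pw (n : ℕ) (L : List Bool) : EE (pw n L) = pw n (EE L) := by
  induction n with
  | zero => rfl
  | succ n ih => rw [pw_succ, pw_succ, EE_append, ih]

theorem EE_false : EE [false] = aa := rfl
theorem EE_true : EE [true] = bb := rfl

theorem EE_count (L : List Bool) (c : Bool) : (EE L).count (c, false) = L.count c := by
  induction L with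
  | nil => rfl
  | cons d L ih =>
    rw [EE_cons, List.count_cons, List.count_cons, List.count_cons, ih]
    cases c <;> cases d <;> simp

theorem WW_EE (N : ℕ) : WW N = EE (pw N [false] ++ ([true] ++ (pw N [false] ++ [true]))) := by
  simp only [EE_append, EE_pw, EE_false, EE_true, WW]

theorem shuf_EE (L : List Bool) (u v : List (Ltr Bool)) (h : Shuf u v (EE L)) (s s' : Bool → Bool)
    (hu : Run (fun _ => false) u s) (hv : Run (fun _ => false) v s') :
    (∃ L1, u = EE L1) ∧ ∃ L2, v = EE L2 := by
  induction L generalizing u v with
  | nil =>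
    obtain ⟨rfl, rfl⟩ := Shuf.nil_iff h
    exact ⟨⟨[], rfl⟩, ⟨[], rfl⟩⟩
  | cons c L ih =>
    rw [EE_cons] at h
    have key : Function.update (Function.update (fun _ : Bool => false) c true) c false =
        fun _ => false := by
      rw [Function.update_idem]
      exact Function.update_eq_self c _
    cases h with
    | left _ h =>
      cases h with
      | left _ h =>
        obtain ⟨_, _, hu⟩ := hu
        simp only [Bool.not_false, Bool.not_true, key] at hu
        obtain ⟨⟨L1, h1⟩, h2⟩ := ih _ _ h hu hv
        exact ⟨⟨c :: L1, by rw [h1, EE_cons]⟩, h2⟩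
      | right _ h => exact absurd hv.1 (by simp)
    | right _ h =>
      cases h with
      | left _ h => exact absurd hu.1 (by simp)
      | right _ h =>
        obtain ⟨_, _, hv⟩ := hv
        simp only [Bool.not_false, Bool.not_true, key] at hv
        obtain ⟨h1, ⟨L2, h2⟩⟩ := ih _ _ h hu hv
        exact ⟨h1, ⟨c :: L2, by rw [h2, EE_cons]⟩⟩

/-! ### filling the gaps -/

theorem shuf_aa {g M : ℕ} (h : g ≤ M) : Shuf (pw (M - g) aa) (pw g aa) (pw M aa) := by
  have : pw M aa = pw (M - g) aa ++ pw g aa := by rw [← pw_add]; congr 1; omega
  rw [this]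
  simpa using (Shuf.nil_right (pw (M - g) aa)).append (Shuf.nil_left (pw g aa))

theorem fill (M : ℕ) (L : List Bool) : ∀ g, g + L.count false ≤ M → ∃ e g' F,
    g' ≤ g + L.count false ∧ (true ∈ L → g' ≤ L.count false) ∧
    pw g aa ++ EE L = F ++ pw g' aa ∧
    Shuf (pw e aa) F (pw (L.count true) (pw M aa ++ bb)) := by
  induction L with
  | nil =>
    intro g _
    exact ⟨0, g, [], by simp, by simp, by simp [EE], .nil⟩
  | cons c L ih =>
    intro g hg
    cases c with
    | false =>
      have hc : (false :: L).count false = L.count false + 1 := by simp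
      have hc' : (false :: L).count true = L.count true := by simp
      rw [hc] at hg
      obtain ⟨e, g', F, h1, h2, h3, h4⟩ := ih (g + 1) (by omega)
      refine ⟨e, g', F, by omega, fun h => ?_, ?_, ?_⟩
      · have : true ∈ L := by simpa using h
        have := h2 this
        omega
      · rw [← h3, pw_succ', EE_cons]
        simp [aa]
      · rw [hc']; exact h4
    | true =>
      have hc : (true :: L).count false = L.count false := by simp
      have hc' : (true :: L).count true = L.count true + 1 := by simp
      rw [hc] at hg
      obtain ⟨e, g', F, h1, h2, h3, h4⟩ := ih 0 (by omega)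
      refine ⟨(M - g) + e, g', pw g aa ++ (bb ++ F), by omega, fun h => by omega, ?_, ?_⟩
      · rw [pw_zero, List.nil_append] at h3
        rw [EE_cons, h3]
        simp [bb]
      · rw [hc', pw_add, pw_succ, List.append_assoc]
        exact (shuf_aa (by omega)).append ((Shuf.nil_left bb).append h4)

theorem fillsq (M : ℕ) (L : List Bool) : ∀ g, g + L.count false ≤ M → true ∈ L → ∃ e g' F,
    g' ≤ L.count false ∧
    pw g aa ++ EE L = F ++ pw g' aa ∧
    Shuf (pw e aa) F (pw M aa ++ (SQ ++ pw (L.count true - 1) (pw M aa ++ bb))) := by
  induction L with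
  | nil => intro g _ h; simp at h
  | cons c L ih =>
    intro g hg hm
    cases c with
    | false =>
      have hc : (false :: L).count false = L.count false + 1 := by simp
      have hc' : (false :: L).count true = L.count true := by simp
      rw [hc] at hg
      have hm' : true ∈ L := by simpa using hm
      obtain ⟨e, g', F, h2, h3, h4⟩ := ih (g + 1) (by omega) hm'
      refine ⟨e, g', F, by omega, ?_, ?_⟩
      · rw [← h3, pw_succ', EE_cons]
        simp [aa]
      · rw [hc']; exact h4
    | true =>
      have hc : (true :: L).count false = L.count false := by simp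
      have hc' : (true :: L).count true = L.count true + 1 := by simp
      rw [hc] at hg
      obtain ⟨e, g', F, h1, h2, h3, h4⟩ := fill M L 0 (by omega)
      refine ⟨(M - g) + (1 + e), g', pw g aa ++ (bb ++ F), by omega, ?_, ?_⟩
      · rw [pw_zero, List.nil_append] at h3
        rw [EE_cons, h3]
        simp [bb]
      · rw [hc', Nat.add_sub_cancel, pw_add, pw_add, pw_one]
        have hsq : Shuf aa bb SQ :=
          .left _ (.right _ (.left _ (.right _ .nil)))
        exact (shuf_aa (by omega)).append (hsq.append h4)

theorem fill_pow (M : ℕ) (L : List Bool) (hL : true ∈ L) (hM : 2 * L.count false ≤ M) (s : ℕ) :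
    ∀ g, g ≤ L.count false → ∃ e g' F, g' ≤ L.count false ∧
    pw g aa ++ EE (pw s L) = F ++ pw g' aa ∧
    Shuf (pw e aa) F (pw (s * L.count true) (pw M aa ++ bb)) := by
  induction s with
  | zero =>
    intro g hg
    exact ⟨0, g, [], hg, by simp [pw_zero, EE], by simpa [pw_zero] using Shuf.nil⟩
  | succ s ih =>
    intro g hg
    obtain ⟨e, g', F, h1, h2, h3, h4⟩ := fill M L g (by omega)
    obtain ⟨e', g'', F', h1', h3', h4'⟩ := ih g' (h2 hL)
    refine ⟨e + e', g'', F ++ F', h1', ?_, ?_⟩
    · rw [pw_succ, EE_append, ← List.append_assoc, h3, List.append_assoc, h3', List.append_assoc]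
    · have : (s + 1) * L.count true = L.count true + s * L.count true := by ring
      rw [this, pw_add, pw_add]
      exact h4.append h4'

theorem fill_CC (M : ℕ) (L : List Bool) (hL : true ∈ L) (hM : 2 * L.count false ≤ M) (hM1 : 1 ≤ M)
    (s : ℕ) (hs : 1 ≤ s) :
    ∃ e, Shuf (pw e aa) (EE (pw s L)) (CC M (s * L.count true)) := by
  obtain ⟨r, rfl⟩ : ∃ r, s = r + 1 := ⟨s - 1, by omega⟩
  have hc : 1 ≤ L.count true := List.count_pos_iff.2 hL
  obtain ⟨e, g', F, h1, h3, h4⟩ := fillsq M L 0 (by omega) hL
  obtain ⟨e', g'', F', h1', h3', h4'⟩ := fill_pow M L hL hM r g' h1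
  rw [pw_zero, List.nil_append] at h3
  have hE : EE (pw (r + 1) L) = F ++ (F' ++ pw g'' aa) := by
    rw [pw_succ, EE_append, h3, List.append_assoc, h3']
  have h5 := h4.append (h4'.append (shuf_aa (g := g'') (M := 2 * M - 1) (by omega)))
  refine ⟨e + (e' + (2 * M - 1 - g'')), ?_⟩
  rw [hE, pw_add, pw_add]
  have : (r + 1) * L.count true - 1 = (L.count true - 1) + r * L.count true := by
    have : (r + 1) * L.count true = L.count true + r * L.count true := by ring
    omega
  rw [CC, this, pw_add]
  simpa [List.append_assoc] using h5

/-! ### runs of the blocks -/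

theorem Run.pw {s : Bool → Bool} {w : List (Ltr Bool)} (h : Run s w s) (n : ℕ) :
    Run s (pw n w) s := by
  induction n with
  | zero => rfl
  | succ n ih => rw [pw_succ, run_append]; exact ⟨s, h, ih⟩

theorem upd_tt (c : Bool) : Function.update (Function.update (fun _ : Bool => true) c false) c true =
    fun _ => true := by
  rw [Function.update_idem]
  exact Function.update_eq_self c _

theorem upd_ff (c : Bool) : Function.update (Function.update (fun _ : Bool => false) c true) c false =
    fun _ => false := by
  rw [Function.update_idem]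
  exact Function.update_eq_self c _

theorem run_xx : Run (fun _ => true) xx (fun _ => true) := by
  simp [xx, Run, Function.update_idem]

theorem run_yy : Run (fun _ => true) yy (fun _ => true) := by
  simp [yy, Run, Function.update_idem]

theorem run_aa : Run (fun _ => false) aa (fun _ => false) := by
  simp [aa, Run, Function.update_idem]

theorem run_bb : Run (fun _ => false) bb (fun _ => false) := by
  simp [bb, Run, Function.update_idem]

theorem run_SQ : Run (fun _ => false) SQ (fun _ => false) := by
  simp [SQ, Run]
  funext c; cases c <;> simp [Function.update_apply]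

theorem run_SS : Run (fun _ => false) SS (fun _ => true) := by
  simp [SS, Run]
  funext c; cases c <;> simp [Function.update_apply]

theorem run_TT : Run (fun _ => true) TT (fun _ => false) := by
  simp [TT, Run]
  funext c; cases c <;> simp [Function.update_apply]

theorem Run.app {s m s' : Bool → Bool} {u v : List (Ltr Bool)} (h : Run s u m) (h' : Run m v s') :
    Run s (u ++ v) s' := (run_append s u v s').2 ⟨m, h, h'⟩

theorem run_BB (N : ℕ) : Run (fun _ => true) (BB N) (fun _ => true) :=
  (run_xx.pw N).app (run_yy.app (run_yy.app (run_xx.pw N)))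

theorem run_CC (M T : ℕ) : Run (fun _ => false) (CC M T) (fun _ => false) :=
  (run_aa.pw M).app (run_SQ.app ((Run.pw ((run_aa.pw M).app run_bb) _).app (run_aa.pw _)))

theorem run_QQ (N : ℕ) : Run (fun _ => false) (QQ N) (fun _ => true) :=
  (run_aa.pw N).app (run_bb.app ((run_aa.pw _).app run_SS))

theorem run_DD (N M T : ℕ) : Run (fun _ => true) (DD N M T) (fun _ => true) :=
  run_TT.app ((run_CC M T).app (run_QQ N))

end Pool.Agent.T9h25.GS
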