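import Pool.Agent.T9h25.GS.Core1

set_option autoImplicit false

namespace Pool.Agent.T9h25.GS

open Relation

/-- the languages considered in the induction -/
structure Nice (K : Language (Ltr Bool)) : Prop where
  st : ∀ w ∈ K, IsST w
  cl : ThetaClosed K
  fin : (Set.range K.leftQuotient).Finite

/-! ### repetitions -/

theorem cuts {B : List (Ltr Bool)} (m : ℕ) : ∀ {U V : List (Ltr Bool)}, Shuf U V (pw m B) →
    ∃ p q : ℕ → List (Ltr Bool), p 0 = [] ∧ q 0 = [] ∧
    (∀ i < m, ∃ a b, Shuf a b B ∧ p (i + 1) = p i ++ a ∧ q (i + 1) = q i ++ b) ∧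
    p m = U ∧ q m = V := by
  induction m with
  | zero =>
    intro U V h
    obtain ⟨rfl, rfl⟩ := Shuf.nil_iff h
    exact ⟨fun _ => [], fun _ => [], rfl, rfl, fun i hi => absurd hi (by omega), rfl, rfl⟩
  | succ m ih =>
    intro U V h
    rw [pw_succ'] at h
    obtain ⟨U1, U2, V1, V2, rfl, rfl, h1, h2⟩ := h.split
    obtain ⟨p, q, hp0, hq0, hs, hp, hq⟩ := ih h1
    refine ⟨fun i => if i ≤ m then p i else U1 ++ U2, fun i => if i ≤ m then q i else V1 ++ V2,
      by simp [hp0], by simp [hq0], ?_, by simp, by simp⟩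
    intro i hi
    by_cases him : i < m
    · obtain ⟨a, b, hab, e1, e2⟩ := hs i him
      refine ⟨a, b, hab, ?_, ?_⟩
      · simp only [Nat.succ_le_of_lt him, if_true, le_of_lt him, e1]
      · simp only [Nat.succ_le_of_lt him, if_true, le_of_lt him, e2]
    · have : i = m := by omega
      subst this
      refine ⟨U2, V2, h2, ?_, ?_⟩
      · simp [hp]
      · simp [hq]

theorem cuts_seg {B : List (Ltr Bool)} {m : ℕ} {p q : ℕ → List (Ltr Bool)}
    (hs : ∀ i < m, ∃ a b, Shuf a b B ∧ p (i + 1) = p i ++ a ∧ q (i + 1) = q i ++ b)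
    (i j : ℕ) (hij : i ≤ j) (hj : j ≤ m) :
    ∃ a b, Shuf a b (pw (j - i) B) ∧ p j = p i ++ a ∧ q j = q i ++ b := by
  induction j, hij using Nat.le_induction with
  | base => exact ⟨[], [], by simpa [pw_zero] using Shuf.nil, by simp, by simp⟩
  | succ j hij ih =>
    obtain ⟨a, b, h1, e1, e2⟩ := ih (by omega)
    obtain ⟨a', b', h2, e3, e4⟩ := hs j (by omega)
    refine ⟨a ++ a', b ++ b', ?_, by rw [e3, e1, List.append_assoc],
      by rw [e4, e2, List.append_assoc]⟩
    have : j + 1 - i = (j - i) + 1 := by omega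
    rw [this, pw_succ']
    exact h1.append h2

theorem lq_pump {K : Language (Ltr Bool)} {P v : List (Ltr Bool)}
    (h : K.leftQuotient P = K.leftQuotient (P ++ v)) (t : ℕ) :
    K.leftQuotient (P ++ pw t v) = K.leftQuotient P := by
  induction t with
  | zero => simp [pw_zero]
  | succ t ih =>
    rw [pw_succ', ← List.append_assoc, Language.leftQuotient_append, ih,
      ← Language.leftQuotient_append, ← h]

theorem region {K1 K2 : Language (Ltr Bool)} (h1 : (Set.range K1.leftQuotient).Finite)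
    (h2 : (Set.range K2.leftQuotient).Finite) :
    ∃ n0 : ℕ, ∀ n ≥ n0, ∀ m ≥ n, ∀ B A1 A2 C1 C2 U V : List (Ltr Bool), Shuf U V (pw m B) →
      A1 ++ (U ++ C1) ∈ K1 → A2 ++ (V ++ C2) ∈ K2 →
      ∃ (i ℓ : ℕ) (P1 P2 v1 v2 S1 S2 : List (Ltr Bool)), 1 ≤ ℓ ∧ i + ℓ ≤ n ∧
        U = P1 ++ (v1 ++ S1) ∧ V = P2 ++ (v2 ++ S2) ∧ Shuf P1 P2 (pw i B) ∧
        Shuf v1 v2 (pw ℓ B) ∧ Shuf S1 S2 (pw (m - (i + ℓ)) B) ∧
        (∀ t, A1 ++ (P1 ++ (pw t v1 ++ (S1 ++ C1))) ∈ K1) ∧
        (∀ t, A2 ++ (P2 ++ (pw t v2 ++ (S2 ++ C2))) ∈ K2) := by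
  classical
  refine ⟨h1.toFinset.card * h2.toFinset.card, ?_⟩
  intro n hn m hm B A1 A2 C1 C2 U V hsh hK1 hK2
  obtain ⟨p, q, hp0, hq0, hs, hp, hq⟩ := cuts m hsh
  have hcard : (h1.toFinset ×ˢ h2.toFinset).card < (Finset.range (n + 1)).card := by
    rw [Finset.card_product, Finset.card_range]
    omega
  obtain ⟨i, hi, j, hj, hne, heq⟩ := Finset.exists_ne_map_eq_of_card_lt_of_maps_to hcard
    (f := fun i => (K1.leftQuotient (A1 ++ p i), K2.leftQuotient (A2 ++ q i))) (by
      intro i _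
      simp only [Finset.coe_product, Set.mem_prod, Finset.mem_coe, Set.Finite.mem_toFinset]
      exact ⟨⟨_, rfl⟩, ⟨_, rfl⟩⟩)
  wlog hlt : i < j generalizing i j with H
  · exact H j hj i hi (Ne.symm hne) heq.symm (by omega)
  simp only [Finset.mem_range] at hi hj
  simp only [Prod.mk.injEq] at heq
  obtain ⟨P1, P2, hP, e1, e2⟩ := cuts_seg hs 0 i (by omega) (by omega)
  obtain ⟨v1, v2, hv, e3, e4⟩ := cuts_seg hs i j (by omega) (by omega)
  obtain ⟨S1, S2, hS, e5, e6⟩ := cuts_seg hs j m (by omega) (by omega)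
  rw [hp0, List.nil_append] at e1
  rw [hq0, List.nil_append] at e2
  have hU : U = P1 ++ (v1 ++ S1) := by rw [← hp, e5, e3, e1, List.append_assoc]
  have hV : V = P2 ++ (v2 ++ S2) := by rw [← hq, e6, e4, e2, List.append_assoc]
  refine ⟨i, j - i, P1, P2, v1, v2, S1, S2, by omega, by omega, hU, hV, by simpa using hP, hv,
    ?_, ?_, ?_⟩
  · have : m - (i + (j - i)) = m - j := by omega
    rw [this]; exact hS
  · intro t
    have h3 := heq.1
    rw [e3, ← List.append_assoc, e1] at h3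
    have h4 := lq_pump h3 t
    have h5 : S1 ++ C1 ∈ K1.leftQuotient (A1 ++ P1 ++ pw t v1) := by
      rw [h4, h3]
      rw [Language.mem_leftQuotient]
      rw [hU] at hK1
      simpa [List.append_assoc] using hK1
    rw [Language.mem_leftQuotient] at h5
    simpa [List.append_assoc] using h5
  · intro t
    have h3 := heq.2
    rw [e4, ← List.append_assoc, e2] at h3
    have h4 := lq_pump h3 t
    have h5 : S2 ++ C2 ∈ K2.leftQuotient (A2 ++ P2 ++ pw t v2) := by
      rw [h4, h3]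
      rw [Language.mem_leftQuotient]
      rw [hV] at hK2
      simpa [List.append_assoc] using hK2
    rw [Language.mem_leftQuotient] at h5
    simpa [List.append_assoc] using h5

/-! ### terminations -/

/-- the terminations of the active actions -/
def Tof (σ : Bool → Bool) : List (Ltr Bool) :=
  (if σ false then [(false, true)] else []) ++ (if σ true then [(true, true)] else [])

theorem run_tof (σ : Bool → Bool) : Run σ (Tof σ) (fun _ => false) := by
  unfold Tof
  cases h0 : σ false <;> cases h1 : σ true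
  · simp only [Bool.false_eq_true, if_false, List.append_nil, Run]
    funext c; cases c <;> assumption
  · simp only [Bool.false_eq_true, if_false, if_true, List.nil_append, Run]
    refine ⟨h1, ?_⟩
    funext c; cases c <;> simp [h0]
  · simp only [Bool.false_eq_true, if_false, if_true, List.append_nil, Run]
    refine ⟨h0, ?_⟩
    funext c; cases c <;> simp [h1]
  · simp only [if_true, List.cons_append, List.nil_append, Run]
    refine ⟨h0, by simpa using h1, ?_⟩
    funext c; cases c <;> simp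

theorem shuf_TT {u v : List (Ltr Bool)} (h : Shuf u v TT) :
    (u = TT ∧ v = []) ∨ (u = [(false, true)] ∧ v = [(true, true)]) ∨
    (u = [(true, true)] ∧ v = [(false, true)]) ∨ (u = [] ∧ v = TT) := by
  cases h with
  | left _ h =>
    rcases h.singleton with ⟨rfl, rfl⟩ | ⟨rfl, rfl⟩
    · left; exact ⟨rfl, rfl⟩
    · right; left; exact ⟨rfl, rfl⟩
  | right _ h =>
    rcases h.singleton with ⟨rfl, rfl⟩ | ⟨rfl, rfl⟩
    · right; right; left; exact ⟨rfl, rfl⟩
    · right; right; right; exact ⟨rfl, rfl⟩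

theorem tof_eq {σ1 σ2 τ1 τ2 : Bool → Bool} {T1 T2 : List (Ltr Bool)} (hT : Shuf T1 T2 TT)
    (r1 : Run σ1 T1 τ1) (r2 : Run σ2 T2 τ2) (hx : ∀ x, ¬ (σ1 x = true ∧ σ2 x = true)) :
    T1 = Tof σ1 ∧ T2 = Tof σ2 := by
  have h0 := hx false
  have h1 := hx true
  rcases shuf_TT hT with ⟨rfl, rfl⟩ | ⟨rfl, rfl⟩ | ⟨rfl, rfl⟩ | ⟨rfl, rfl⟩
  · have a0 : σ1 false = true := r1.1
    have a1 : σ1 true = true := by simpa using r1.2.1
    have b0 : σ2 false = false := by simpa [a0] using h0
    have b1 : σ2 true = false := by simpa [a1] using h1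
    simp [Tof, a0, a1, b0, b1, TT]
  · have a0 : σ1 false = true := r1.1
    have b1 : σ2 true = true := r2.1
    have b0 : σ2 false = false := by simpa [a0] using h0
    have a1 : σ1 true = false := by simpa [b1] using h1
    simp [Tof, a0, a1, b0, b1]
  · have a1 : σ1 true = true := r1.1
    have b0 : σ2 false = true := r2.1
    have b1 : σ2 true = false := by simpa [a1] using h1
    have a0 : σ1 false = false := by simpa [b0] using h0
    simp [Tof, a0, a1, b0, b1]
  · have b0 : σ2 false = true := r2.1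
    have b1 : σ2 true = true := by simpa using r2.2.1
    have a0 : σ1 false = false := by simpa [b0] using h0
    have a1 : σ1 true = false := by simpa [b1] using h1
    simp [Tof, a0, a1, b0, b1, TT]

theorem pw_xx_term (e : ℕ) : pw e xx ++ [(false, true)] = (false, true) :: pw e aa := by
  induction e with
  | zero => rfl
  | succ e ih => rw [pw_succ, List.append_assoc, ih, pw_succ]; rfl

theorem red_tl (σ : Bool → Bool) (e : ℕ) :
    Red (pw e (tl (σ false)) ++ Tof σ) (Tof σ ++ pw e aa) := by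
  have hB : Red (pw e aa ++ (if σ true then [(true, true)] else []))
      ((if σ true then [(true, true)] else []) ++ pw e aa) := by
    cases σ true
    · simpa using ReflTransGen.refl
    · simpa using term_left true (pw e aa) (fun l hl => aa_fst hl)
  unfold Tof
  cases h0 : σ false
  · have : tl false = aa := rfl
    rw [this]
    simpa using hB
  · have : tl true = xx := rfl
    rw [this]
    have h1 := hB.left [(false, true)]
    have e1 : pw e xx ++ ((if true = true then [(false, true)] else []) ++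
        (if σ true then [(true, true)] else [])) =
        [(false, true)] ++ (pw e aa ++ (if σ true then [(true, true)] else [])) := by
      rw [if_pos rfl, ← List.append_assoc, pw_xx_term]
      simp
    rw [e1]
    simpa using h1

theorem CC_count (M T : ℕ) (hM : 1 ≤ M) (hT : 1 ≤ T) :
    (CC M T).count (false, false) = M * (T + 2) := by
  obtain ⟨T', rfl⟩ : ∃ T', T = T' + 1 := ⟨T - 1, by omega⟩
  have e1 : aa.count ((false, false) : Ltr Bool) = 1 := by decide
  have e2 : bb.count ((false, false) : Ltr Bool) = 0 := by decide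
  have e3 : SQ.count ((false, false) : Ltr Bool) = 1 := by decide
  simp only [CC, List.count_append, pw_count, e1, e2, e3, Nat.add_sub_cancel]
  have : M * 1 + (1 + (T' * (M * 1 + 0) + (2 * M - 1) * 1)) = M + T' * M + (1 + (2 * M - 1)) := by
    ring
  rw [this, show 1 + (2 * M - 1) = 2 * M by omega]
  ring

/-- the main construction: the first class parks, the second one plays -/
theorem park {K1 K2 : Language (Ltr Bool)} (N1 : Nice K1) (N2 : Nice K2) {N M T ℓ μ s : ℕ}
    (hN : 1 ≤ N) (hM : 1 ≤ M) {P1 P2 v1 v2 S1 S2 Z R : List (Ltr Bool)}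
    (hP : Shuf P1 P2 Z) (hZ : Run (fun _ => false) Z (fun _ => true))
    (hv : Shuf v1 v2 (pw ℓ (BB N))) (hS : Shuf S1 S2 (BB N ++ R))
    (h1 : ∀ t, P1 ++ (pw t v1 ++ S1) ∈ K1) (h2 : ∀ t, P2 ++ (pw t v2 ++ S2) ∈ K2)
    (hp : ∀ σ, Run (fun _ => false) P1 σ → ∀ t, P1 ++ (pw (t * μ) (tl (σ false)) ++ S1) ∈ K1)
    (hc : 1 ≤ v2.count (true, false)) (hT : s * v2.count (true, false) = T) (hs : 1 ≤ s)
    (hA : 2 * v2.count (false, false) ≤ M) (hμM : μ ∣ M) (hμs : μ ∣ s) :
    ∃ u ∈ K1, ∃ v ∈ K2, Shuf u v (Z ++ (DD N M T ++ R)) := by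
  have hsplit : ∀ (K : Language (Ltr Bool)), Nice K → ∀ P W : List (Ltr Bool), P ++ W ∈ K →
      ∃ σ, Run (fun _ => false) P σ ∧ Run σ W (fun _ => false) := by
    intro K hK P W h
    have := (isST_iff _).1 (hK.st _ h)
    exact (run_append _ _ _ _).1 this
  obtain ⟨σ1, hσ1, -⟩ := hsplit K1 N1 P1 _ (h1 0)
  obtain ⟨σ2, hσ2, -⟩ := hsplit K2 N2 P2 _ (h2 0)
  have hx : ∀ x, ¬ (σ1 x = true ∧ σ2 x = true) := by
    rintro x ⟨ha, hb⟩
    have c1 := run_count hσ1 x
    have c2 := run_count hσ2 x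
    have c3 := run_count hZ x
    have d1 := hP.count (x, false)
    have d2 := hP.count (x, true)
    rw [ha] at c1
    rw [hb] at c2
    simp at c1 c2 c3
    omega
  obtain ⟨β1, S1', β2, S2', rfl, rfl, hβ, hS'⟩ := hS.split
  obtain ⟨β1', β2', hβ', rβ1, rβ2⟩ := hβ.red (red_BB N hN)
  obtain ⟨T1, κ1, T2, κ2, rfl, rfl, hTT, hκ⟩ := hβ'.split
  obtain ⟨u1', u2', hu', ru1, ru2⟩ := (hv.append hTT).red (red_BBs N ℓ hN)
  obtain ⟨T1', q1, T2', q2, rfl, rfl, hTT', hq⟩ := hu'.split
  -- membership facts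
  have red1 : ∀ w, P1 ++ (w ++ (β1 ++ S1')) ∈ K1 → P1 ++ (w ++ (T1 ++ (κ1 ++ S1'))) ∈ K1 := by
    intro w h
    refine N1.cl.red ?_ h
    have := rβ1.ctx (P1 ++ w) S1'
    simpa [List.append_assoc] using this
  have red2 : ∀ w, P2 ++ (w ++ (β2 ++ S2')) ∈ K2 → P2 ++ (w ++ (T2 ++ (κ2 ++ S2'))) ∈ K2 := by
    intro w h
    refine N2.cl.red ?_ h
    have := rβ2.ctx (P2 ++ w) S2'
    simpa [List.append_assoc] using this
  have m1 : P1 ++ (T1 ++ (κ1 ++ S1')) ∈ K1 := by
    have := red1 [] (by simpa [pw_zero] using h1 0)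
    simpa using this
  have m2 : P2 ++ (T2 ++ (κ2 ++ S2')) ∈ K2 := by
    have := red2 [] (by simpa [pw_zero] using h2 0)
    simpa using this
  have m1' : P1 ++ (T1' ++ (q1 ++ (κ1 ++ S1'))) ∈ K1 := by
    have h3 := red1 v1 (by simpa [pw_one] using h1 1)
    refine N1.cl.red ?_ h3
    have := ru1.ctx P1 (κ1 ++ S1')
    simpa [List.append_assoc] using this
  have m2' : P2 ++ (T2' ++ (q2 ++ (κ2 ++ S2'))) ∈ K2 := by
    have h3 := red2 v2 (by simpa [pw_one] using h2 1)
    refine N2.cl.red ?_ h3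
    have := ru2.ctx P2 (κ2 ++ S2')
    simpa [List.append_assoc] using this
  have runT : ∀ (K : Language (Ltr Bool)), Nice K → ∀ (P W V : List (Ltr Bool)) (σ : Bool → Bool),
      Run (fun _ => false) P σ → P ++ (W ++ V) ∈ K → ∃ τ, Run σ W τ ∧ Run τ V (fun _ => false) := by
    intro K hK P W V σ hσ h
    obtain ⟨σ', h3, h4⟩ := hsplit K hK P _ h
    rw [run_det h3 hσ] at h4
    exact (run_append _ _ _ _).1 h4
  obtain ⟨τ1, rT1, _⟩ := runT K1 N1 _ _ _ _ hσ1 m1
  obtain ⟨τ2, rT2, _⟩ := runT K2 N2 _ _ _ _ hσ2 m2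
  obtain ⟨τ1', rT1', rq1⟩ := runT K1 N1 _ _ _ _ hσ1 m1'
  obtain ⟨τ2', rT2', rq2⟩ := runT K2 N2 _ _ _ _ hσ2 m2'
  obtain ⟨e1, e2⟩ := tof_eq hTT rT1 rT2 hx
  obtain ⟨e1', e2'⟩ := tof_eq hTT' rT1' rT2' hx
  subst e1 e2 e1' e2'
  rw [run_det rT1' (run_tof σ1)] at rq1
  rw [run_det rT2' (run_tof σ2)] at rq2
  obtain ⟨ρ1, rq1, _⟩ := (run_append _ _ _ _).1 rq1
  obtain ⟨ρ2, rq2, _⟩ := (run_append _ _ _ _).1 rq2
  -- the second class is sequential
  have hWE : pw ℓ (WW N) = EE (pw ℓ (pw N [false] ++ ([true] ++ (pw N [false] ++ [true])))) := by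
    rw [WW_EE, EE_pw]
  rw [hWE] at hq
  obtain ⟨-, L, rfl⟩ := shuf_EE _ _ _ hq _ _ rq1 rq2
  have hcnt : ∀ c, L.count c = v2.count (c, false) := by
    intro c
    have := ru2.count (c, false)
    rw [List.count_append, List.count_append, EE_count] at this
    omega
  have hL : true ∈ L := List.count_pos_iff.1 (by rw [hcnt]; omega)
  obtain ⟨e, he⟩ := fill_CC M L hL (by rw [hcnt]; exact hA) hM s hs
  rw [hcnt, hT] at he
  have hT1 : 1 ≤ T := by rw [← hT]; exact Nat.mul_pos hs hc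
  have hμe : μ ∣ e := by
    have h3 := he.count (false, false)
    rw [CC_count M T hM hT1, pw_count, EE_pw, pw_count,
      show aa.count ((false, false) : Ltr Bool) = 1 by decide, mul_one] at h3
    have h4 : μ ∣ e + s * (EE L).count (false, false) := by
      rw [← h3]; exact Dvd.dvd.mul_right hμM _
    exact (Nat.dvd_add_left (Dvd.dvd.mul_right hμs _)).1 h4
  obtain ⟨t, rfl⟩ := hμe
  -- the words of the two classes
  have f1 : P1 ++ (Tof σ1 ++ (pw (μ * t) aa ++ (κ1 ++ S1'))) ∈ K1 := by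
    have h3 := red1 _ (hp σ1 hσ1 t)
    rw [mul_comm t μ] at h3
    refine N1.cl.red ?_ h3
    have := (red_tl σ1 (μ * t)).ctx P1 (κ1 ++ S1')
    simpa [List.append_assoc] using this
  have f2 : P2 ++ (Tof σ2 ++ (EE (pw s L) ++ (κ2 ++ S2'))) ∈ K2 := by
    have h3 := red2 _ (h2 s)
    refine N2.cl.red ?_ h3
    have := (red_pw ru2 s).ctx P2 (κ2 ++ S2')
    rw [EE_pw]
    simpa [List.append_assoc] using this
  refine ⟨_, f1, _, f2, ?_⟩
  have := hP.append (hTT.append (he.append (hκ.append hS')))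
  simpa [DD, List.append_assoc] using this

end Pool.Agent.T9h25.GS
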