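import Pool.Agent.T9h25.GS.Core2

set_option autoImplicit false

namespace Pool.Agent.T9h25.GS

open Relation

theorem Shuf.length {α : Type} {u v w : List (Ltr α)} (h : Shuf u v w) :
    w.length = u.length + v.length := by
  induction h with
  | nil => rfl
  | left l _ ih => simp only [List.length_cons, ih]; omega
  | right l _ ih => simp only [List.length_cons, ih]; omega

theorem Shuf.mem_left {α : Type} {u v w : List (Ltr α)} (h : Shuf u v w) {l : Ltr α} (hl : l ∈ u) :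
    l ∈ w := by
  induction h with
  | nil => exact hl
  | left m _ ih =>
    rcases List.mem_cons.1 hl with rfl | hl
    · exact List.mem_cons_self
    · exact List.mem_cons_of_mem _ (ih hl)
  | right m _ ih => exact List.mem_cons_of_mem _ (ih hl)

theorem xx_fst {n : ℕ} {l : Ltr Bool} (h : l ∈ pw n xx) : l.1 = false := by
  have := mem_pw h
  simp only [xx, List.mem_cons, List.not_mem_nil, or_false] at this
  rcases this with rfl | rfl <;> simp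

theorem BB_count_b (N : ℕ) : (BB N).count (true, false) = 2 := by
  have e1 : xx.count ((true, false) : Ltr Bool) = 0 := by decide
  have e2 : yy.count ((true, false) : Ltr Bool) = 1 := by decide
  simp only [BB, List.count_append, pw_count, e1, e2]
  omega

theorem BB_count_a (N : ℕ) : (BB N).count (false, false) = 2 * N := by
  have e1 : xx.count ((false, false) : Ltr Bool) = 1 := by decide
  have e2 : yy.count ((false, false) : Ltr Bool) = 0 := by decide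
  simp only [BB, List.count_append, pw_count, e1, e2]
  ring

theorem BB_length (N : ℕ) : (BB N).length = 4 * N + 4 := by
  simp only [BB, List.length_append, pw_length, xx, yy, List.length_cons, List.length_nil]
  ring

/-- parking with the universal parameters -/
theorem parkB {K1 K2 : Language (Ltr Bool)} (N1 : Nice K1) (N2 : Nice K2) {n N M ℓ μ : ℕ}
    (hN : 1 ≤ N) (hM : M = (4 * (N * n)).factorial) (hn : ℓ ≤ n)
    {P1 P2 v1 v2 S1 S2 Z R : List (Ltr Bool)}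
    (hP : Shuf P1 P2 Z) (hZ : Run (fun _ => false) Z (fun _ => true))
    (hv : Shuf v1 v2 (pw ℓ (BB N))) (hS : Shuf S1 S2 (BB N ++ R))
    (h1 : ∀ t, P1 ++ (pw t v1 ++ S1) ∈ K1) (h2 : ∀ t, P2 ++ (pw t v2 ++ S2) ∈ K2)
    (hμ : 1 ≤ μ) (hμ' : μ ≤ 4 * (N * n))
    (hp : ∀ σ, Run (fun _ => false) P1 σ → ∀ t, P1 ++ (pw (t * μ) (tl (σ false)) ++ S1) ∈ K1)
    (hc : 1 ≤ v2.count (true, false)) :
    ∃ u ∈ K1, ∃ v ∈ K2, Shuf u v (Z ++ (DD N M (M * M) ++ R)) := by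
  have hNn : n ≤ N * n := Nat.le_mul_of_pos_left _ hN
  have hMpos : 1 ≤ M := by rw [hM]; exact Nat.factorial_pos _
  have hμM : μ ∣ M := by rw [hM]; exact Nat.dvd_factorial hμ hμ'
  have c1 := hv.count (true, false)
  have c2 := hv.count (false, false)
  rw [pw_count, BB_count_b] at c1
  rw [pw_count, BB_count_a] at c2
  have hcM : v2.count (true, false) ∣ M := by
    rw [hM]
    exact Nat.dvd_factorial hc (by omega)
  obtain ⟨d, hd⟩ := hcM
  have hdpos : 1 ≤ d := by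
    rcases Nat.eq_zero_or_pos d with h | h
    · rw [h, mul_zero] at hd; omega
    · exact h
  refine park N1 N2 (s := M * d) hN hMpos hP hZ hv hS h1 h2 hp hc ?_ ?_ ?_ hμM ?_
  · rw [mul_assoc, mul_comm d, ← hd]
  · exact Nat.mul_pos hMpos hdpos
  · have h3 : ℓ * (2 * N) ≤ n * (2 * N) := Nat.mul_le_mul_right _ hn
    have h4 : n * (2 * N) = 2 * (N * n) := by ring
    have h5 : 4 * (N * n) ≤ M := by rw [hM]; exact Nat.self_le_factorial _
    omega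
  · exact Dvd.dvd.mul_right hμM _

theorem nice_run {K : Language (Ltr Bool)} (hK : Nice K) {P W : List (Ltr Bool)}
    (h : P ++ W ∈ K) {σ : Bool → Bool} (hσ : Run (fun _ => false) P σ) :
    Run σ W (fun _ => false) := by
  have := (isST_iff _).1 (hK.st _ h)
  obtain ⟨σ', h3, h4⟩ := (run_append _ _ _ _).1 this
  rwa [run_det h3 hσ] at h4

theorem st_count {w : List (Ltr Bool)} (h : IsST w) (x : Bool) :
    w.count (x, false) = w.count (x, true) := by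
  have := run_count ((isST_iff w).1 h) x
  simpa using this

/-- the first class has no `b` in the repeated part -/
theorem parkA {K1 K2 : Language (Ltr Bool)} (N1 : Nice K1) (N2 : Nice K2) {n N M ℓ : ℕ}
    (hN : 1 ≤ N) (hM : M = (4 * (N * n)).factorial) (hℓ : 1 ≤ ℓ) (hn : ℓ ≤ n)
    {P1 P2 v1 v2 S1 S2 Z R : List (Ltr Bool)}
    (hP : Shuf P1 P2 Z) (hZ : Run (fun _ => false) Z (fun _ => true))
    (hv : Shuf v1 v2 (pw ℓ (BB N))) (hS : Shuf S1 S2 (BB N ++ R))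
    (h1 : ∀ t, P1 ++ (pw t v1 ++ S1) ∈ K1) (h2 : ∀ t, P2 ++ (pw t v2 ++ S2) ∈ K2)
    (hne : v1 ≠ []) (hc : v1.count (true, false) = 0) :
    ∃ u ∈ K1, ∃ v ∈ K2, Shuf u v (Z ++ (DD N M (M * M) ++ R)) := by
  have hc' : v1.count (true, true) = 0 := by
    have g0 := st_count (N1.st _ (h1 0)) true
    have g1 := st_count (N1.st _ (h1 1)) true
    simp only [pw_zero, pw_one, List.count_append, List.nil_append] at g0 g1
    omega
  have hall : ∀ l ∈ v1, l.1 = false := by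
    intro l hl
    by_contra hne
    have hl1 : l.1 = true := by simpa using hne
    obtain ⟨l1, l2⟩ := l
    simp only at hl1
    subst hl1
    cases l2
    · exact (List.count_eq_zero.1 hc) hl
    · exact (List.count_eq_zero.1 hc') hl
  obtain ⟨σ, hσ, -⟩ := (run_append _ _ _ _).1 ((isST_iff _).1 (N1.st _ (h1 0)))
  obtain ⟨μ, hlen, hμ, hpump⟩ := pump_altw σ [] v1 (by simp) hall hne (by
    intro t
    obtain ⟨s', h3, -⟩ := (run_append _ _ _ _).1 (nice_run N1 (h1 t) hσ)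
    exact ⟨s', by simpa using h3⟩)
  have c1 := hv.count (true, false)
  rw [pw_count, BB_count_b] at c1
  have c2 := hv.length
  rw [pw_length, BB_length] at c2
  have hμ' : μ ≤ 4 * (N * n) := by
    have h3 : ℓ * (4 * N + 4) ≤ n * (4 * N + 4) := Nat.mul_le_mul_right _ hn
    have h4 : n * (4 * N + 4) ≤ n * (8 * N) := Nat.mul_le_mul_left _ (by omega)
    have h5 : n * (8 * N) = 8 * (N * n) := by ring
    omega
  refine parkB N1 N2 hN hM hn hP hZ hv hS h1 h2 hμ hμ' ?_ (by omega)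
  intro σ' hσ' t
  rw [run_det hσ' hσ]
  have := hpump t
  rw [List.nil_append, List.append_nil] at this
  rw [← this]
  exact h1 t

/-- pumping inside of a run -/
theorem parkC {K1 K2 : Language (Ltr Bool)} (N1 : Nice K1) (N2 : Nice K2) {n N M ℓ ℓ' i' : ℕ}
    (hN : 1 ≤ N) (hM : M = (4 * (N * n)).factorial) (hn : ℓ ≤ n) (hn' : ℓ' ≤ n)
    {P1 P2 v1 v2 S1 S2 Z R P1' η1 η2 P2' S1' : List (Ltr Bool)}
    (hP : Shuf P1 P2 Z) (hZ : Run (fun _ => false) Z (fun _ => true))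
    (hv : Shuf v1 v2 (pw ℓ (BB N))) (hS : Shuf S1 S2 (BB N ++ R))
    (h1 : ∀ t, P1 ++ (pw t v1 ++ S1) ∈ K1) (h2 : ∀ t, P2 ++ (pw t v2 ++ S2) ∈ K2)
    (hP' : Shuf P1' P2' (pw i' xx)) (hη : Shuf η1 η2 (pw ℓ' xx))
    (hS1 : S1 = P1' ++ (η1 ++ S1')) (h3 : ∀ t, P1 ++ (P1' ++ (pw t η1 ++ S1')) ∈ K1)
    (hne : η1 ≠ []) (hc : 1 ≤ v2.count (true, false)) :
    ∃ u ∈ K1, ∃ v ∈ K2, Shuf u v (Z ++ (DD N M (M * M) ++ R)) := by
  obtain ⟨σ, hσ, -⟩ := (run_append _ _ _ _).1 ((isST_iff _).1 (N1.st _ (h1 0)))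
  obtain ⟨μ, hlen, hμ, hpump⟩ := pump_altw σ P1' η1 (fun l hl => xx_fst (hP'.mem_left hl))
    (fun l hl => xx_fst (hη.mem_left hl)) hne (by
    intro t
    have := nice_run N1 (h3 t) hσ
    rw [← List.append_assoc] at this
    obtain ⟨s', h3, -⟩ := (run_append _ _ _ _).1 this
    exact ⟨s', h3⟩)
  have hNn : n ≤ N * n := Nat.le_mul_of_pos_left _ hN
  have c2 := hη.length
  rw [pw_length] at c2
  have hxx : xx.length = 2 := rfl
  rw [hxx] at c2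
  refine parkB N1 N2 hN hM hn hP hZ hv hS h1 h2 hμ (by omega) ?_ hc
  intro σ' hσ' t
  rw [run_det hσ' hσ, hS1]
  have e1 : pw (t * μ) (tl (σ false)) ++ (P1' ++ (η1 ++ S1')) = P1' ++ (pw (t + 1) η1 ++ S1') := by
    rw [← List.append_assoc, ← hpump t, pw_succ']
    simp [List.append_assoc]
  rw [e1]
  exact h3 (t + 1)

/-- both classes occur in the repeated part -/
theorem mixed {K1 K2 : Language (Ltr Bool)} (N1 : Nice K1) (N2 : Nice K2) {n0 n N M ℓ : ℕ}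
    (hreg : ∀ n ≥ n0, ∀ m ≥ n, ∀ B A1 A2 C1 C2 U V : List (Ltr Bool), Shuf U V (pw m B) →
      A1 ++ (U ++ C1) ∈ K1 → A2 ++ (V ++ C2) ∈ K2 →
      ∃ (i ℓ : ℕ) (P1 P2 v1 v2 S1 S2 : List (Ltr Bool)), 1 ≤ ℓ ∧ i + ℓ ≤ n ∧
        U = P1 ++ (v1 ++ S1) ∧ V = P2 ++ (v2 ++ S2) ∧ Shuf P1 P2 (pw i B) ∧
        Shuf v1 v2 (pw ℓ B) ∧ Shuf S1 S2 (pw (m - (i + ℓ)) B) ∧
        (∀ t, A1 ++ (P1 ++ (pw t v1 ++ (S1 ++ C1))) ∈ K1) ∧
        (∀ t, A2 ++ (P2 ++ (pw t v2 ++ (S2 ++ C2))) ∈ K2))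
    (hn0 : n0 ≤ n) (hnN : n ≤ N)
    (hN : 1 ≤ N) (hM : M = (4 * (N * n)).factorial) (hℓ : 1 ≤ ℓ) (hn : ℓ ≤ n)
    {P1 P2 v1 v2 S1 S2 Z R : List (Ltr Bool)}
    (hP : Shuf P1 P2 Z) (hZ : Run (fun _ => false) Z (fun _ => true))
    (hv : Shuf v1 v2 (pw ℓ (BB N))) (hS : Shuf S1 S2 (BB N ++ R))
    (h1 : ∀ t, P1 ++ (pw t v1 ++ S1) ∈ K1) (h2 : ∀ t, P2 ++ (pw t v2 ++ S2) ∈ K2)
    (hne1 : v1 ≠ []) (hne2 : v2 ≠ []) :
    ∃ u ∈ K1, ∃ v ∈ K2, Shuf u v (Z ++ (DD N M (M * M) ++ R)) := by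
  have swap : (∃ u ∈ K2, ∃ v ∈ K1, Shuf u v (Z ++ (DD N M (M * M) ++ R))) →
      ∃ u ∈ K1, ∃ v ∈ K2, Shuf u v (Z ++ (DD N M (M * M) ++ R)) := by
    rintro ⟨u, hu, v, hv, h⟩
    exact ⟨v, hv, u, hu, h.symm⟩
  by_cases c1 : v1.count (true, false) = 0
  · exact parkA N1 N2 hN hM hℓ hn hP hZ hv hS h1 h2 hne1 c1
  by_cases c2 : v2.count (true, false) = 0
  · exact swap (parkA N2 N1 hN hM hℓ hn hP.symm hZ hv.symm hS.symm h2 h1 hne2 c2)
  -- pump in the next run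
  have hS' : Shuf S1 S2 (pw N xx ++ (yy ++ (yy ++ pw N xx) ++ R)) := by
    simpa [BB, List.append_assoc] using hS
  obtain ⟨U1, R1, U2, R2, e1, e2, hU, hR⟩ := hS'.split
  have m1 : P1 ++ (U1 ++ R1) ∈ K1 := by
    have := h1 0
    rwa [pw_zero, List.nil_append, e1] at this
  have m2 : P2 ++ (U2 ++ R2) ∈ K2 := by
    have := h2 0
    rwa [pw_zero, List.nil_append, e2] at this
  obtain ⟨i', ℓ', P1', P2', η1, η2, S1', S2', hℓ', hi', eU1, eU2, hP', hη, hS'', g1, g2⟩ :=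
    hreg n hn0 N hnN xx P1 P2 R1 R2 U1 U2 hU m1 m2
  by_cases hη1 : η1 = []
  · have hη2 : η2 ≠ [] := by
      rintro rfl
      have := hη.length
      rw [hη1, pw_length] at this
      simp [xx] at this
      omega
    refine swap (parkC N2 N1 (i' := i') (ℓ' := ℓ') hN hM hn (by omega) hP.symm hZ hv.symm hS.symm h2 h1
      hP'.symm hη.symm (S1' := S2' ++ R2) ?_ g2 hη2 (by omega))
    rw [e2, eU2]; simp [List.append_assoc]
  · refine parkC N1 N2 (i' := i') (ℓ' := ℓ') hN hM hn (by omega) hP hZ hv hS h1 h2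
      hP' hη (S1' := S1' ++ R1) ?_ g1 hη1 (by omega)
    rw [e1, eU1]; simp [List.append_assoc]

/-- moving the repeated part -/
theorem rotate {K1 K2 : Language (Ltr Bool)} {B X Y : List (Ltr Bool)} {N i ℓ k1 k2 : ℕ}
    (hℓ : 1 ≤ ℓ) (hdvd : ℓ ∣ N) (hi : i + ℓ ≤ N) (hk1 : 1 ≤ k1) (hk2 : 1 ≤ k2)
    {P1 P2 v1 v2 S1 S2 : List (Ltr Bool)} (hP : Shuf P1 P2 (X ++ pw i B))
    (hv : Shuf v1 v2 (pw ℓ B)) (hS : Shuf S1 S2 (pw (N - (i + ℓ)) B ++ Y))
    (h1 : ∀ t, P1 ++ (pw t v1 ++ S1) ∈ K1) (h2 : ∀ t, P2 ++ (pw t v2 ++ S2) ∈ K2) :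
    ∃ P1' P2' v1' v2' S1' S2' : List (Ltr Bool), Shuf P1' P2' (X ++ pw (k1 * N) B) ∧
      Shuf v1' v2' (pw ℓ B) ∧ Shuf S1' S2' (pw (k2 * N) B ++ Y) ∧
      (∀ t, P1' ++ (pw t v1' ++ S1') ∈ K1) ∧ (∀ t, P2' ++ (pw t v2' ++ S2') ∈ K2) ∧
      (v1 ≠ [] → v1' ≠ []) ∧ (v2 ≠ [] → v2' ≠ []) := by
  obtain ⟨c, hc⟩ := hdvd
  have hk1N : i ≤ k1 * N := le_trans (by omega) (Nat.le_mul_of_pos_left N hk1)
  set φ := (k1 * N - i) % ℓ with hφ
  set t1 := (k1 * N - i) / ℓ with ht1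
  have hdm : ℓ * t1 + φ = k1 * N - i := Nat.div_add_mod _ _
  have hφlt : φ < ℓ := Nat.mod_lt _ hℓ
  have hle : t1 ≤ k1 * c := by
    have : ℓ * t1 ≤ ℓ * (k1 * c) := by
      have h3 : ℓ * (k1 * c) = k1 * N := by rw [hc]; ring
      omega
    exact Nat.le_of_mul_le_mul_left this hℓ
  obtain ⟨k2', rfl⟩ : ∃ k2', k2 = k2' + 1 := ⟨k2 - 1, by omega⟩
  set t2 := k2' * c + (k1 * c - t1) with ht2
  have ht2' : t2 * ℓ = k2' * N + (i + φ) := by
    have h3 : ℓ * (k1 * c) = k1 * N := by rw [hc]; ring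
    have h4 : (k1 * c - t1) * ℓ = i + φ := by
      rw [Nat.sub_mul, mul_comm (k1 * c), mul_comm t1, h3]
      omega
    rw [ht2, add_mul, h4, hc]
    ring
  clear_value t2 t1 φ
  have hsplit : pw ℓ B = pw φ B ++ pw (ℓ - φ) B := by rw [← pw_add]; congr 1; omega
  rw [hsplit] at hv
  obtain ⟨a1, b1, a2, b2, rfl, rfl, ha, hb⟩ := hv.split
  refine ⟨P1 ++ (pw t1 (a1 ++ b1) ++ a1), P2 ++ (pw t1 (a2 ++ b2) ++ a2), b1 ++ a1, b2 ++ a2,
    b1 ++ (pw t2 (a1 ++ b1) ++ S1), b2 ++ (pw t2 (a2 ++ b2) ++ S2), ?_, ?_, ?_, ?_, ?_, ?_, ?_⟩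
  · have h3 := hP.append (((ha.append hb).pw t1).append ha)
    have e1 : X ++ pw i B ++ (pw t1 (pw φ B ++ pw (ℓ - φ) B) ++ pw φ B) = X ++ pw (k1 * N) B := by
      rw [← hsplit, pw_mul, List.append_assoc, ← pw_add, ← pw_add]
      congr 2
      rw [mul_comm t1]
      omega
    rwa [e1] at h3
  · have h3 := hb.append ha
    have e1 : pw (ℓ - φ) B ++ pw φ B = pw ℓ B := by rw [← pw_add]; congr 1; omega
    rwa [e1] at h3
  · have h3 := hb.append (((ha.append hb).pw t2).append hS)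
    have e1 : pw (ℓ - φ) B ++ (pw t2 (pw φ B ++ pw (ℓ - φ) B) ++ (pw (N - (i + ℓ)) B ++ Y)) =
        pw ((k2' + 1) * N) B ++ Y := by
      rw [← hsplit, pw_mul, ← List.append_assoc, ← List.append_assoc, ← pw_add, ← pw_add]
      congr 2
      rw [ht2']
      have : (k2' + 1) * N = k2' * N + N := by ring
      omega
    rwa [e1] at h3
  · intro t
    have e1 : P1 ++ (pw t1 (a1 ++ b1) ++ a1) ++ (pw t (b1 ++ a1) ++
        (b1 ++ (pw t2 (a1 ++ b1) ++ S1))) = P1 ++ (pw (t1 + ((t + 1) + t2)) (a1 ++ b1) ++ S1) := by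
      rw [pw_add, pw_add, ← pw_rot t a1 b1]
      simp [List.append_assoc]
    rw [e1]
    exact h1 _
  · intro t
    have e1 : P2 ++ (pw t1 (a2 ++ b2) ++ a2) ++ (pw t (b2 ++ a2) ++
        (b2 ++ (pw t2 (a2 ++ b2) ++ S2))) = P2 ++ (pw (t1 + ((t + 1) + t2)) (a2 ++ b2) ++ S2) := by
      rw [pw_add, pw_add, ← pw_rot t a2 b2]
      simp [List.append_assoc]
    rw [e1]
    exact h2 _
  · intro h h'
    obtain ⟨rfl, rfl⟩ := List.append_eq_nil_iff.1 h'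
    exact h rfl
  · intro h h'
    obtain ⟨rfl, rfl⟩ := List.append_eq_nil_iff.1 h'
    exact h rfl

/-- the second class does not occur in the repeated part -/
theorem pure_case {K1 K2 : Language (Ltr Bool)} {B D : List (Ltr Bool)} {N i ℓ k1 k2 : ℕ}
    (hG : ∀ X Y, X ++ (pw N B ++ Y) ∈ K1 →
      X ++ (pw ((k1 - 1) * N) B ++ (D ++ (pw ((k2 - 1) * N - 1) B ++ Y))) ∈ K1)
    (hdvd : ℓ ∣ N) (hi : i + ℓ ≤ N) (hk1 : 1 ≤ k1) (hk2 : 2 ≤ k2) (hN : 1 ≤ N)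
    {X Y X1 X2 P1 P2 S1 S2 Y1 Y2 : List (Ltr Bool)} (hX : Shuf X1 X2 X)
    (hP : Shuf P1 P2 (pw i B)) (hS : Shuf S1 S2 (pw (N - (i + ℓ)) B)) (hY : Shuf Y1 Y2 Y)
    (h1 : ∀ t, X1 ++ (P1 ++ (pw t (pw ℓ B) ++ (S1 ++ Y1))) ∈ K1)
    (h2 : X2 ++ (P2 ++ (S2 ++ Y2)) ∈ K2) :
    ∃ u ∈ K1, ∃ v ∈ K2, Shuf u v
      (X ++ (pw (k1 * N) B ++ (D ++ (pw (k2 * N - 1) B ++ Y)))) := by
  obtain ⟨c, hc⟩ := hdvd
  have h3 := hG (X1 ++ (P1 ++ pw (N - i) B)) (pw (i + ℓ) B ++ (S1 ++ Y1)) (by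
    have h3 := h1 (2 * c + 1)
    rw [pw_mul] at h3
    have e1 : (2 * c + 1) * ℓ = (N - i) + (N + (i + ℓ)) := by
      have : (2 * c + 1) * ℓ = 2 * (ℓ * c) + ℓ := by ring
      rw [this, ← hc]
      omega
    rw [e1, pw_add, pw_add] at h3
    simpa [List.append_assoc] using h3)
  refine ⟨_, h3, _, h2, ?_⟩
  have h4 := hX.append (hP.append ((Shuf.nil_right (pw (N - i) B ++ (pw ((k1 - 1) * N) B ++
    (D ++ (pw ((k2 - 1) * N - 1) B ++ pw (i + ℓ) B))))).append (hS.append hY)))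
  obtain ⟨k1', rfl⟩ : ∃ k1', k1 = k1' + 1 := ⟨k1 - 1, by omega⟩
  obtain ⟨k2', rfl⟩ : ∃ k2', k2 = k2' + 1 := ⟨k2 - 1, by omega⟩
  simp only [Nat.add_sub_cancel] at h4 ⊢
  have hk2' : 1 ≤ k2' := by omega
  have hk2N : 1 ≤ k2' * N := Nat.mul_pos hk2' hN
  have e1 : pw ((k1' + 1) * N) B = pw i B ++ (pw (N - i) B ++ pw (k1' * N) B) := by
    rw [← pw_add, ← pw_add]
    congr 1
    have : (k1' + 1) * N = k1' * N + N := by ring
    omega
  have e2 : pw ((k2' + 1) * N - 1) B =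
      pw (k2' * N - 1) B ++ (pw (i + ℓ) B ++ pw (N - (i + ℓ)) B) := by
    rw [← pw_add, ← pw_add]
    congr 1
    have : (k2' + 1) * N = k2' * N + N := by ring
    omega
  rw [e1, e2]
  simpa [List.append_assoc] using h4

end Pool.Agent.T9h25.GS
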