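import Pool.Agent.T9h25.GS.Core3

set_option autoImplicit false

namespace Pool.Agent.T9h25.GS

open Relation

/-- the property proved by induction on the expression -/
def Good (K : Language (Ltr Bool)) : Prop :=
  ∃ n0 k0 : ℕ, ∀ n ≥ n0, ∀ k1 ≥ k0, ∀ k2 ≥ k0, ∀ X Y : List (Ltr Bool),
    X ++ (pw n.factorial (BB n.factorial) ++ Y) ∈ K →
    X ++ (pw (k1 * n.factorial) (BB n.factorial) ++
      (DD n.factorial (4 * (n.factorial * n)).factorial
        ((4 * (n.factorial * n)).factorial * (4 * (n.factorial * n)).factorial) ++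
      (pw (k2 * n.factorial - 1) (BB n.factorial) ++ Y))) ∈ K

/-! ### the words of the region are connected -/

/-- no proper factorisation point of `w`, read from the state with both actions active, is idle -/
def Conn (w : List (Ltr Bool)) : Prop :=
  ∀ a d s, w = a ++ d → Run (fun _ => true) a s → s ≠ fun _ => false

theorem conn_nil : Conn [] := by
  intro a d s h hr
  obtain ⟨rfl, rfl⟩ := List.append_eq_nil_iff.1 h.symm
  simp only [Run] at hr
  rw [← hr]
  intro h
  exact absurd (congrFun h true) (by simp)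

theorem conn_append {u v : List (Ltr Bool)} (hu : Conn u) (hr : Run (fun _ => true) u (fun _ => true))
    (hv : Conn v) : Conn (u ++ v) := by
  intro a d s h ha
  rcases List.append_eq_append_iff.1 h with ⟨c, h1, h2⟩ | ⟨c, h1, h2⟩
  · rw [h1] at ha
    obtain ⟨m, h3, h4⟩ := (run_append _ _ _ _).1 ha
    rw [run_det h3 hr] at h4
    exact hv c d s h2 h4
  · exact hu a c s h1 ha

theorem conn_two {l m : Ltr Bool} (h : ∀ s, Run (fun _ => true) [l] s → s ≠ fun _ => false)
    (h' : ∀ s, Run (fun _ => true) [l, m] s → s ≠ fun _ => false) : Conn [l, m] := by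
  intro a d s he hr
  match a, he, hr with
  | [], _, hr => exact conn_nil [] [] s rfl hr
  | [a1], he, hr =>
    simp only [List.cons_append, List.nil_append, List.cons.injEq] at he
    rw [← he.1] at hr
    exact h s hr
  | [a1, a2], he, hr =>
    simp only [List.cons_append, List.nil_append, List.cons.injEq] at he
    rw [← he.1, ← he.2.1] at hr
    exact h' s hr
  | a1 :: a2 :: a3 :: a4, he, hr =>
    exfalso
    have := congrArg List.length he
    simp at this

theorem ne_ff {s : Bool → Bool} (c : Bool) (h : s c = true) : s ≠ fun _ => false := by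
  intro h'
  rw [h'] at h
  exact absurd h (by simp)

theorem conn_xx : Conn xx := by
  refine conn_two (fun s h => ?_) (fun s h => ?_)
  · obtain ⟨_, h⟩ := h
    simp only [Run] at h
    exact ne_ff true (by rw [← h]; simp)
  · rw [run_det h run_xx]; exact ne_ff true rfl

theorem conn_yy : Conn yy := by
  refine conn_two (fun s h => ?_) (fun s h => ?_)
  · obtain ⟨_, h⟩ := h
    simp only [Run] at h
    exact ne_ff false (by rw [← h]; simp)
  · rw [run_det h run_yy]; exact ne_ff true rfl

theorem conn_pw {w : List (Ltr Bool)} (h : Conn w) (hr : Run (fun _ => true) w (fun _ => true))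
    (n : ℕ) : Conn (pw n w) := by
  induction n with
  | zero => exact conn_nil
  | succ n ih => rw [pw_succ]; exact conn_append h hr ih

theorem conn_BB (N : ℕ) : Conn (BB N) :=
  conn_append (conn_pw conn_xx run_xx N) (run_xx.pw N)
    (conn_append conn_yy run_yy (conn_append conn_yy run_yy (conn_pw conn_xx run_xx N)))

theorem conn_BBs (m N : ℕ) : Conn (pw m (BB N)) := conn_pw (conn_BB N) (run_BB N) m

/-- the state before the region -/
theorem st_X {N m : ℕ} (hN : 1 ≤ N) (hm : 1 ≤ m) {X Y : List (Ltr Bool)}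
    (h : IsST (X ++ (pw m (BB N) ++ Y))) : Run (fun _ => false) X (fun _ => true) := by
  obtain ⟨m', rfl⟩ : ∃ m', m = m' + 1 := ⟨m - 1, by omega⟩
  obtain ⟨n', rfl⟩ : ∃ n', N = n' + 1 := ⟨N - 1, by omega⟩
  obtain ⟨σ, h1, h2⟩ := (run_append _ _ _ _).1 ((isST_iff _).1 h)
  have e1 : pw (m' + 1) (BB (n' + 1)) ++ Y = pw (n' + 1) xx ++ (yy ++
      (yy ++ pw (n' + 1) xx ++ pw m' (BB (n' + 1)) ++ Y)) := by
    rw [pw_succ]
    simp [BB, List.append_assoc]
  rw [e1] at h2
  obtain ⟨τ, h3, h4⟩ := (run_append _ _ _ _).1 h2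
  have hτ : τ true = true := h4.1
  have c := run_count h3 true
  rw [pw_count, pw_count, show xx.count ((true, false) : Ltr Bool) = 0 by decide,
    show xx.count ((true, true) : Ltr Bool) = 0 by decide, hτ] at c
  have hσt : σ true = true := by
    by_contra hne
    rw [if_neg hne] at c
    simp at c
  have hσf : σ false = true := by
    rw [pw_xx_succ] at h3
    exact h3.1
  have : σ = fun _ => true := by funext c; cases c <;> assumption
  rwa [← this]

theorem st_result {N m k k' M T : ℕ} (hN : 1 ≤ N) (hm : 1 ≤ m) {X Y : List (Ltr Bool)}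
    (h : IsST (X ++ (pw m (BB N) ++ Y))) :
    IsST (X ++ (pw k (BB N) ++ (DD N M T ++ (pw k' (BB N) ++ Y)))) := by
  have hX := st_X hN hm h
  rw [isST_iff] at h ⊢
  obtain ⟨σ, h1, h2⟩ := (run_append _ _ _ _).1 h
  rw [run_det h1 hX] at h2
  obtain ⟨τ, h3, h4⟩ := (run_append _ _ _ _).1 h2
  rw [run_det h3 ((run_BB N).pw m)] at h4
  exact hX.app (((run_BB N).pw k).app ((run_DD N M T).app (((run_BB N).pw k').app h4)))

/-! ### the shuffle -/

theorem good_par {K1 K2 : Language (Ltr Bool)} (N1 : Nice K1) (N2 : Nice K2) (G1 : Good K1)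
    (G2 : Good K2) {K : Language (Ltr Bool)}
    (hK : ∀ w, w ∈ K ↔ IsST w ∧ ∃ u ∈ K1, ∃ v ∈ K2, Shuf u v w) : Good K := by
  obtain ⟨a1, b1, G1⟩ := G1
  obtain ⟨a2, b2, G2⟩ := G2
  obtain ⟨n0, hreg⟩ := region N1.fin N2.fin
  refine ⟨a1 + a2 + n0 + 1, b1 + b2 + 2, ?_⟩
  intro n hn k1 hk1 k2 hk2 X Y hw
  obtain ⟨hst, u, hu, v, hv, hsh⟩ := (hK _).1 hw
  have hN : 1 ≤ n.factorial := Nat.factorial_pos n
  have hnN : n ≤ n.factorial := Nat.self_le_factorial n
  refine (hK _).2 ⟨st_result hN hN hst, ?_⟩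
  obtain ⟨X1, u', X2, v', rfl, rfl, hX, hsh'⟩ := hsh.split
  obtain ⟨U, Y1, V, Y2, rfl, rfl, hUV, hY⟩ := hsh'.split
  obtain ⟨i, ℓ, P1, P2, v1, v2, S1, S2, hℓ, hi, rfl, rfl, hP, hvv, hS, h1, h2⟩ :=
    hreg n (by omega) n.factorial hnN (BB n.factorial) X1 X2 Y1 Y2 U V hUV hu hv
  have hdvd : ℓ ∣ n.factorial := Nat.dvd_factorial hℓ (by omega)
  by_cases hv2 : v2 = []
  · subst hv2
    have e := hvv.eq_of_nil_right
    rw [← e] at h1
    exact pure_case (fun X Y h => G1 n (by omega) (k1 - 1) (by omega) (k2 - 1) (by omega) X Y h)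
      hdvd (by omega) (by omega) (by omega) hN hX hP hS hY h1 (by simpa [pw_zero] using h2 0)
  by_cases hv1 : v1 = []
  · subst hv1
    have e := hvv.eq_of_nil_left
    rw [← e] at h2
    obtain ⟨a, ha, b, hb, h⟩ := pure_case
      (fun X Y h => G2 n (by omega) (k1 - 1) (by omega) (k2 - 1) (by omega) X Y h)
      hdvd (by omega) (by omega) (by omega) hN hX.symm hP.symm hS.symm hY.symm h2
      (by simpa [pw_zero] using h1 0)
    exact ⟨b, hb, a, ha, h.symm⟩
  obtain ⟨P1', P2', v1', v2', S1', S2', hP', hv', hS', h1', h2', ne1, ne2⟩ :=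
    rotate (k1 := k1) (k2 := k2) (N := n.factorial) hℓ hdvd (by omega) (by omega) (by omega)
      (hX.append hP) hvv (hS.append hY) (fun t => by simpa [List.append_assoc] using h1 t)
      (fun t => by simpa [List.append_assoc] using h2 t)
  have hZ : Run (fun _ => false) (X ++ pw (k1 * n.factorial) (BB n.factorial)) (fun _ => true) :=
    (st_X hN hN hst).app ((run_BB _).pw _)
  have hk2N : 1 ≤ k2 * n.factorial := Nat.mul_pos (by omega) hN
  have e1 : pw (k2 * n.factorial) (BB n.factorial) ++ Y =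
      BB n.factorial ++ (pw (k2 * n.factorial - 1) (BB n.factorial) ++ Y) := by
    obtain ⟨r, hr⟩ : ∃ r, k2 * n.factorial = r + 1 := ⟨k2 * n.factorial - 1, by omega⟩
    rw [hr, pw_succ, Nat.add_sub_cancel, List.append_assoc]
  rw [e1] at hS'
  have := mixed N1 N2 hreg (n := n) (by omega) hnN hN rfl hℓ (by omega) hP' hZ hv' hS' h1' h2'
    (ne1 hv1) (ne2 hv2)
  simpa [List.append_assoc] using this

/-! ### products and iterations -/

/-- a factorisation of a word containing the region -/
theorem split_region {N m : ℕ} (hN : 1 ≤ N) (hm : 1 ≤ m) {X Y u v : List (Ltr Bool)}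
    (hu : IsST u) (hv : IsST v) (h : X ++ (pw m (BB N) ++ Y) = u ++ v) :
    (∃ c, u = X ++ (pw m (BB N) ++ c) ∧ Y = c ++ v) ∨
    (∃ c, v = c ++ (pw m (BB N) ++ Y) ∧ X = u ++ c) := by
  have hst : IsST (X ++ (pw m (BB N) ++ Y)) := by rw [h]; exact hu.append hv
  have hX := st_X hN hm hst
  rcases List.append_eq_append_iff.1 h with ⟨c, h1, h2⟩ | ⟨c, h1, h2⟩
  · rcases List.append_eq_append_iff.1 h2 with ⟨d, h3, h4⟩ | ⟨d, h3, h4⟩
    · left
      exact ⟨d, by rw [h1, h3], h4⟩
    · exfalso
      rw [h1] at hu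
      obtain ⟨σ, h5, h6⟩ := (run_append _ _ _ _).1 ((isST_iff _).1 hu)
      rw [run_det h5 hX] at h6
      exact conn_BBs m N c d _ h3 h6 rfl
  · right
    exact ⟨c, h2, h1⟩

theorem good_seq {K1 K2 : Language (Ltr Bool)} (s1 : ∀ w ∈ K1, IsST w) (s2 : ∀ w ∈ K2, IsST w)
    (G1 : Good K1) (G2 : Good K2) : Good (K1 * K2) := by
  obtain ⟨a1, b1, G1⟩ := G1
  obtain ⟨a2, b2, G2⟩ := G2
  refine ⟨a1 + a2, b1 + b2, ?_⟩
  intro n hn k1 hk1 k2 hk2 X Y hw
  have hN : 1 ≤ n.factorial := Nat.factorial_pos n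
  obtain ⟨u, hu, v, hv, huv⟩ := Language.mem_mul.1 hw
  rcases split_region hN hN (s1 u hu) (s2 v hv) huv.symm with ⟨c, rfl, rfl⟩ | ⟨c, rfl, rfl⟩
  · refine Language.mem_mul.2 ⟨_, G1 n (by omega) k1 (by omega) k2 (by omega) X c hu, v, hv, ?_⟩
    simp [List.append_assoc]
  · refine Language.mem_mul.2 ⟨u, hu, _, G2 n (by omega) k1 (by omega) k2 (by omega) c Y hv, ?_⟩
    simp [List.append_assoc]

theorem good_star {K : Language (Ltr Bool)} (s1 : ∀ w ∈ K, IsST w) (G : Good K) :
    Good (KStar.kstar K) := by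
  obtain ⟨a1, b1, G⟩ := G
  refine ⟨a1, b1, ?_⟩
  intro n hn k1 hk1 k2 hk2 X Y hw
  have hN : 1 ≤ n.factorial := Nat.factorial_pos n
  obtain ⟨L, hL, hLK⟩ := Language.mem_kstar.1 hw
  clear hw
  induction L generalizing X with
  | nil =>
    exfalso
    have := congrArg List.length hL
    simp only [List.length_append, pw_length, BB_length, List.flatten_nil, List.length_nil] at this
    have h2 : 1 ≤ n.factorial * (4 * n.factorial + 4) := Nat.mul_pos hN (by omega)
    omega
  | cons u L ih =>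
    rw [List.flatten_cons] at hL
    have hLK' : ∀ y ∈ L, y ∈ K := fun y hy => hLK y (by simp [hy])
    have hu : u ∈ K := hLK u (by simp)
    have hst : IsST L.flatten := IsST.flatten fun y hy => s1 y (hLK' y hy)
    rcases split_region hN hN (s1 u hu) hst hL with ⟨c, rfl, rfl⟩ | ⟨c, h1, rfl⟩
    · refine Language.mem_kstar.2 ⟨(X ++ (pw (k1 * n.factorial) (BB n.factorial) ++
          (DD n.factorial (4 * (n.factorial * n)).factorial
          ((4 * (n.factorial * n)).factorial * (4 * (n.factorial * n)).factorial) ++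
          (pw (k2 * n.factorial - 1) (BB n.factorial) ++ c)))) :: L, ?_, ?_⟩
      · simp [List.append_assoc]
      · intro y hy
        rcases List.mem_cons.1 hy with rfl | hy
        · exact G n hn k1 hk1 k2 hk2 X c hu
        · exact hLK' y hy
    · obtain ⟨L', h2, h3⟩ := Language.mem_kstar.1 (ih c h1.symm hLK')
      refine Language.mem_kstar.2 ⟨u :: L', ?_, ?_⟩
      · rw [List.flatten_cons, ← h2]
        simp [List.append_assoc]
      · intro y hy
        rcases List.mem_cons.1 hy with rfl | hy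
        · exact hu
        · exact h3 y hy

theorem nice_lang (hA : PieceA) (e : GExpr Bool) : Nice e.lang :=
  ⟨isST_lang e, closed_lang e, (hA e).finite_range_leftQuotient⟩

theorem good_lang (hA : PieceA) (e : GExpr Bool) : Good e.lang := by
  induction e with
  | eps =>
    refine ⟨0, 0, ?_⟩
    intro n _ k1 _ k2 _ X Y hw
    exfalso
    have hN : 1 ≤ n.factorial := Nat.factorial_pos n
    have h2 : 1 ≤ n.factorial * (4 * n.factorial + 4) := Nat.mul_pos hN (by omega)
    have hw : X ++ (pw n.factorial (BB n.factorial) ++ Y) = [] := hw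
    have := congrArg List.length hw
    simp only [List.length_append, pw_length, BB_length, List.length_nil] at this
    omega
  | act a =>
    refine ⟨0, 0, ?_⟩
    intro n _ k1 _ k2 _ X Y hw
    exfalso
    have hN : 1 ≤ n.factorial := Nat.factorial_pos n
    have h2 : 1 * (4 * n.factorial + 4) ≤ n.factorial * (4 * n.factorial + 4) :=
      Nat.mul_le_mul_right _ hN
    have hw : X ++ (pw n.factorial (BB n.factorial) ++ Y) = [(a, false), (a, true)] := hw
    have := congrArg List.length hw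
    simp only [List.length_append, pw_length, BB_length, List.length_cons, List.length_nil] at this
    omega
  | seq e f ihe ihf => exact good_seq (isST_lang e) (isST_lang f) ihe ihf
  | alt e f ihe ihf =>
    obtain ⟨a1, b1, G1⟩ := ihe
    obtain ⟨a2, b2, G2⟩ := ihf
    refine ⟨a1 + a2, b1 + b2, ?_⟩
    intro n hn k1 hk1 k2 hk2 X Y hw
    rcases hw with hw | hw
    · exact Or.inl (G1 n (by omega) k1 (by omega) k2 (by omega) X Y hw)
    · exact Or.inr (G2 n (by omega) k1 (by omega) k2 (by omega) X Y hw)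
  | conj e f ihe ihf =>
    obtain ⟨a1, b1, G1⟩ := ihe
    obtain ⟨a2, b2, G2⟩ := ihf
    refine ⟨a1 + a2, b1 + b2, ?_⟩
    intro n hn k1 hk1 k2 hk2 X Y hw
    exact ⟨G1 n (by omega) k1 (by omega) k2 (by omega) X Y hw.1,
      G2 n (by omega) k1 (by omega) k2 (by omega) X Y hw.2⟩
  | par e f ihe ihf =>
    exact good_par (nice_lang hA e) (nice_lang hA f) ihe ihf (fun w => Iff.rfl)
  | star e ihe => exact good_star (isST_lang e) ihe

theorem main (hA : PieceA) (h3 : PieceC3) (h4 : PieceC4) (e : GExpr Bool) : e.lang ≠ LL := by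
  intro he
  obtain ⟨n0, k0, G⟩ := good_lang hA e
  have h2 : 2 ≤ n0 + 2 := by omega
  have heven : ∀ m, 2 ≤ m → Even m.factorial := by
    intro m hm
    exact even_iff_two_dvd.2 (Nat.dvd_factorial (by norm_num) hm)
  have hE := heven (n0 + 2) (by omega)
  have hpos : 1 ≤ (n0 + 2).factorial := Nat.factorial_pos _
  have h1 := h3 (n0 + 2).factorial (n0 + 2).factorial hE
  rw [← he] at h1
  have h5 := G (n0 + 2) (by omega) k0 le_rfl k0 le_rfl SS TT h1
  rw [he] at h5
  refine h4 _ _ _ _ _ hE (heven _ ?_) h5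
  have : 1 * 2 ≤ (n0 + 2).factorial * (n0 + 2) := Nat.mul_le_mul hpos (by omega)
  omega

end Pool.Agent.T9h25.GS
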