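import Mathlib

set_option autoImplicit false

namespace Pool.Agent.T9h25.GS

/-- Letters: `(x, false)` is the start `x_s` of the action `x`, `(x, true)` is its termination `x_t`. -/
abbrev Ltr (α : Type) : Type := α × Bool

variable {α : Type}

/-- The st-words: for every action `x` the letters of `x` form a word of `(x_s x_t)^*`. -/
def IsST [DecidableEq α] (w : List (Ltr α)) : Prop :=
  ∀ x : α, ∃ k : ℕ, w.filter (fun l => decide (l.1 = x)) =
    (List.replicate k [(x, false), (x, true)]).flatten

/-- `Shuf u v w`: the word `w` is a shuffle (an interleaving) of `u` and `v`. -/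
inductive Shuf : List (Ltr α) → List (Ltr α) → List (Ltr α) → Prop
  | nil : Shuf [] [] []
  | left {u v w : List (Ltr α)} (l : Ltr α) : Shuf u v w → Shuf (l :: u) v (l :: w)
  | right {u v w : List (Ltr α)} (l : Ltr α) : Shuf u v w → Shuf u (l :: v) (l :: w)

/-- Generalized synchronization expressions over `α`. -/
inductive GExpr (α : Type) : Type
  | eps : GExpr α
  | act : α → GExpr α
  | seq : GExpr α → GExpr α → GExpr α
  | alt : GExpr α → GExpr α → GExpr α
  | conj : GExpr α → GExpr α → GExpr α
  | par : GExpr α → GExpr α → GExpr α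
  | star : GExpr α → GExpr α

/-- The language of a generalized synchronization expression. -/
def GExpr.lang [DecidableEq α] : GExpr α → Language (Ltr α)
  | .eps => {w | w = []}
  | .act a => {w | w = [(a, false), (a, true)]}
  | .seq e f => e.lang * f.lang
  | .alt e f => e.lang + f.lang
  | .conj e f => e.lang ⊓ f.lang
  | .par e f => {w | IsST w ∧ ∃ u ∈ e.lang, ∃ v ∈ f.lang, Shuf u v w}
  | .star e => KStar.kstar e.lang

/-- The pairs `l m` of letters with a rule `l m → m l` in the semi-commutation `θ`:
`x_s y_s → y_s x_s`, `x_t y_t → y_t x_t` and `x_s y_t → y_t x_s` for `x ≠ y`. -/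
def Rule (l m : Ltr α) : Prop := l.1 ≠ m.1 ∧ (l.2 = m.2 ∨ (l.2 = false ∧ m.2 = true))

/-- One step of rewriting by `θ`. -/
inductive Step : List (Ltr α) → List (Ltr α) → Prop
  | mk (p r : List (Ltr α)) (l m : Ltr α) (h : Rule l m) : Step (p ++ l :: m :: r) (p ++ m :: l :: r)

/-- `θ`-closed languages. -/
def ThetaClosed (L : Language (Ltr α)) : Prop := ∀ u v, u ∈ L → Step u v → v ∈ L

end Pool.Agent.T9h25.GS
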