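import Pool.Agent.T9h25.GS.PieceC

set_option autoImplicit false

namespace Pool.Agent.T9h25.GS

open Relation

theorem reg_of_map {β T : Type} [Finite T] {K : Language β} (S : List β → T)
    (h : ∀ w w', S w = S w' → ∀ z, w ++ z ∈ K → w' ++ z ∈ K) : K.IsRegular :=
  Language.IsRegular.of_finite_range_leftQuotient (fin_of_map S h)

theorem reg_eps {β : Type} : Language.IsRegular (T := β) {w | w = []} := by
  refine reg_of_map (T := Prop) (fun w => w = []) ?_
  intro w w' e z hz
  rw [eq_iff_iff] at e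
  have hz : w ++ z = [] := hz
  obtain ⟨h1, h2⟩ := List.append_eq_nil_iff.1 hz
  change w' ++ z = []
  rw [e.1 h1, h2, List.append_nil]

theorem reg_two {β : Type} (x y : β) : Language.IsRegular (T := β) {w | w = [x, y]} := by
  refine reg_of_map (T := Prop × Prop × Prop) (fun w => (w = [], w = [x], w = [x, y])) ?_
  intro w w' e z hz
  simp only [Prod.mk.injEq, eq_iff_iff] at e
  have hz : w ++ z = [x, y] := hz
  change w' ++ z = [x, y]
  match w, e, hz with
  | [], e, hz => rw [e.1.1 rfl]; exact hz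
  | [a], e, hz =>
    simp only [List.cons_append, List.nil_append, List.cons.injEq] at hz
    rw [e.2.1.1 (by rw [hz.1]), hz.2]
    rfl
  | [a, b], e, hz =>
    simp only [List.cons_append, List.nil_append, List.cons.injEq] at hz
    rw [e.2.2.1 (by rw [hz.1, hz.2.1]), hz.2.2]
    rfl
  | a :: b :: c :: d, e, hz =>
    exfalso
    have := congrArg List.length hz
    simp at this

theorem reg_mul {β : Type} {K1 K2 : Language β} (h1 : K1.IsRegular) (h2 : K2.IsRegular) :
    (K1 * K2).IsRegular := by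
  have f1 : Finite (Set.range K1.leftQuotient) := h1.finite_range_leftQuotient
  have f2 : Finite (Set.range K2.leftQuotient) := h2.finite_range_leftQuotient
  refine reg_of_map (T := (Set.range K1.leftQuotient) × Set (Set.range K2.leftQuotient))
    (fun w => (⟨K1.leftQuotient w, ⟨w, rfl⟩⟩, {q | ∃ u v, w = u ++ v ∧ u ∈ K1 ∧
      (q : Language β) = K2.leftQuotient v})) ?_
  intro w w' e z hz
  simp only [Prod.mk.injEq, Subtype.mk.injEq] at e
  obtain ⟨e1, e2⟩ := e
  obtain ⟨x, hx, y, hy, hxy⟩ := Language.mem_mul.1 hz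
  rcases List.append_eq_append_iff.1 hxy with ⟨c, h3, h4⟩ | ⟨c, h3, h4⟩
  · -- w = x ++ c, y = c ++ z
    have hq : (⟨K2.leftQuotient c, ⟨c, rfl⟩⟩ : Set.range K2.leftQuotient) ∈
        {q : Set.range K2.leftQuotient | ∃ u v, w = u ++ v ∧ u ∈ K1 ∧
          (q : Language β) = K2.leftQuotient v} := ⟨x, c, h3, hx, rfl⟩
    rw [e2] at hq
    obtain ⟨u, v, h5, h6, h7⟩ := hq
    have h8 : z ∈ K2.leftQuotient c := by
      rw [Language.mem_leftQuotient, ← h4]; exact hy
    have h9 : z ∈ K2.leftQuotient v := by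
      have h7 : K2.leftQuotient c = K2.leftQuotient v := h7
      rw [← h7]; exact h8
    exact Language.mem_mul.2 ⟨u, h6, v ++ z, h9, by rw [h5, List.append_assoc]⟩
  · -- x = w ++ c, z = c ++ y
    have h8 : c ∈ K1.leftQuotient w := by
      rw [Language.mem_leftQuotient, ← h3]; exact hx
    rw [e1] at h8
    exact Language.mem_mul.2 ⟨w' ++ c, h8, y, hy, by rw [h4, List.append_assoc]⟩

theorem star_split {β : Type} {K : Language β} (L : List (List β)) (hL : ∀ y ∈ L, y ∈ K) :
    ∀ w z, w ++ z = L.flatten → (z = [] ∧ w ∈ KStar.kstar K) ∨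
      ∃ u v z1 z2, w = u ++ v ∧ u ∈ KStar.kstar K ∧ v ++ z1 ∈ K ∧ z = z1 ++ z2 ∧
        z2 ∈ KStar.kstar K := by
  induction L with
  | nil =>
    intro w z h
    obtain ⟨rfl, rfl⟩ := List.append_eq_nil_iff.1 h
    exact Or.inl ⟨rfl, Language.nil_mem_kstar K⟩
  | cons x L ih =>
    intro w z h
    have hL' : ∀ y ∈ L, y ∈ K := fun y hy => hL y (by simp [hy])
    rw [List.flatten_cons] at h
    rcases List.append_eq_append_iff.1 h with ⟨c, h3, h4⟩ | ⟨c, h3, h4⟩
    · -- x = w ++ c, z = c ++ L.flatten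
      right
      refine ⟨[], w, c, L.flatten, rfl, Language.nil_mem_kstar K, ?_, h4,
        Language.mem_kstar.2 ⟨L, rfl, hL'⟩⟩
      rw [← h3]
      exact hL x (by simp)
    · -- w = x ++ c, L.flatten = c ++ z
      rcases ih hL' c z h4.symm with ⟨h5, h6⟩ | ⟨u, v, z1, z2, h5, h6, h7, h8, h9⟩
      · left
        refine ⟨h5, ?_⟩
        obtain ⟨L', h7, h8⟩ := Language.mem_kstar.1 h6
        refine Language.mem_kstar.2 ⟨x :: L', by rw [h3, h7, List.flatten_cons], ?_⟩
        intro y hy
        rcases List.mem_cons.1 hy with rfl | hy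
        · exact hL y (by simp)
        · exact h8 y hy
      · right
        refine ⟨x ++ u, v, z1, z2, by rw [h3, h5, List.append_assoc], ?_, h7, h8, h9⟩
        obtain ⟨L', h10, h11⟩ := Language.mem_kstar.1 h6
        refine Language.mem_kstar.2 ⟨x :: L', by rw [h10, List.flatten_cons], ?_⟩
        intro y hy
        rcases List.mem_cons.1 hy with rfl | hy
        · exact hL y (by simp)
        · exact h11 y hy

theorem kstar_append {β : Type} {K : Language β} {u v : List β} (hu : u ∈ KStar.kstar K)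
    (hv : v ∈ KStar.kstar K) : u ++ v ∈ KStar.kstar K := by
  obtain ⟨L, rfl, h1⟩ := Language.mem_kstar.1 hu
  obtain ⟨L', rfl, h2⟩ := Language.mem_kstar.1 hv
  refine Language.mem_kstar.2 ⟨L ++ L', by rw [List.flatten_append], ?_⟩
  intro y hy
  rcases List.mem_append.1 hy with hy | hy
  · exact h1 y hy
  · exact h2 y hy

theorem kstar_single {β : Type} {K : Language β} {u : List β} (hu : u ∈ K) :
    u ∈ KStar.kstar K := by
  refine Language.mem_kstar.2 ⟨[u], by simp, ?_⟩
  intro y hy
  simp only [List.mem_singleton] at hy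
  rw [hy]; exact hu

theorem reg_star {β : Type} {K : Language β} (h : K.IsRegular) : (KStar.kstar K).IsRegular := by
  have f1 : Finite (Set.range K.leftQuotient) := h.finite_range_leftQuotient
  refine reg_of_map (T := Prop × Set (Set.range K.leftQuotient))
    (fun w => (w ∈ KStar.kstar K, {q | ∃ u v, w = u ++ v ∧ u ∈ KStar.kstar K ∧
      (q : Language β) = K.leftQuotient v})) ?_
  intro w w' e z hz
  simp only [Prod.mk.injEq, eq_iff_iff] at e
  obtain ⟨e1, e2⟩ := e
  obtain ⟨L, h3, h4⟩ := Language.mem_kstar.1 hz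
  rcases star_split L h4 w z h3 with ⟨rfl, h6⟩ | ⟨u, v, z1, z2, h5, h6, h7, h8, h9⟩
  · rw [List.append_nil]; exact e1.1 h6
  · have hq : (⟨K.leftQuotient v, ⟨v, rfl⟩⟩ : Set.range K.leftQuotient) ∈
        {q : Set.range K.leftQuotient | ∃ u v, w = u ++ v ∧ u ∈ KStar.kstar K ∧
          (q : Language β) = K.leftQuotient v} := ⟨u, v, h5, h6, rfl⟩
    rw [e2] at hq
    obtain ⟨u', v', h10, h11, h12⟩ := hq
    have h12 : K.leftQuotient v = K.leftQuotient v' := h12
    have h13 : z1 ∈ K.leftQuotient v := h7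
    rw [h12] at h13
    have h14 : v' ++ z1 ∈ K := h13
    rw [h10, h8]
    have := kstar_append h11 (kstar_append (kstar_single h14) h9)
    simpa [List.append_assoc] using this

theorem reg_shuf {α : Type} {K1 K2 : Language (Ltr α)} (h1 : K1.IsRegular) (h2 : K2.IsRegular) :
    Language.IsRegular (T := Ltr α) {w | ∃ u ∈ K1, ∃ v ∈ K2, Shuf u v w} := by
  have f1 : Finite (Set.range K1.leftQuotient) := h1.finite_range_leftQuotient
  have f2 : Finite (Set.range K2.leftQuotient) := h2.finite_range_leftQuotient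
  refine reg_of_map (T := Set ((Set.range K1.leftQuotient) × (Set.range K2.leftQuotient)))
    (fun w => {q | ∃ u v, Shuf u v w ∧ (q.1 : Language (Ltr α)) = K1.leftQuotient u ∧
      (q.2 : Language (Ltr α)) = K2.leftQuotient v}) ?_
  intro w w' e z hz
  obtain ⟨u, hu, v, hv, hsh⟩ := hz
  obtain ⟨u1, u2, v1, v2, rfl, rfl, h3, h4⟩ := hsh.split
  have hq : ((⟨K1.leftQuotient u1, ⟨u1, rfl⟩⟩, ⟨K2.leftQuotient v1, ⟨v1, rfl⟩⟩) :
      (Set.range K1.leftQuotient) × (Set.range K2.leftQuotient)) ∈
      {q : (Set.range K1.leftQuotient) × (Set.range K2.leftQuotient) | ∃ u v, Shuf u v w ∧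
      (q.1 : Language (Ltr α)) = K1.leftQuotient u ∧
      (q.2 : Language (Ltr α)) = K2.leftQuotient v} := ⟨u1, v1, h3, rfl, rfl⟩
  have e : {q : (Set.range K1.leftQuotient) × (Set.range K2.leftQuotient) | ∃ u v, Shuf u v w ∧
      (q.1 : Language (Ltr α)) = K1.leftQuotient u ∧
      (q.2 : Language (Ltr α)) = K2.leftQuotient v} = {q | ∃ u v, Shuf u v w' ∧
      (q.1 : Language (Ltr α)) = K1.leftQuotient u ∧
      (q.2 : Language (Ltr α)) = K2.leftQuotient v} := e
  rw [e] at hq
  obtain ⟨u', v', h5, h6, h7⟩ := hq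
  have h6 : K1.leftQuotient u1 = K1.leftQuotient u' := h6
  have h7 : K2.leftQuotient v1 = K2.leftQuotient v' := h7
  have h8 : u2 ∈ K1.leftQuotient u1 := hu
  have h9 : v2 ∈ K2.leftQuotient v1 := hv
  rw [h6] at h8
  rw [h7] at h9
  exact ⟨u' ++ u2, h8, v' ++ v2, h9, h5.append h4⟩

theorem reg_ST {α : Type} [Finite α] [DecidableEq α] :
    Language.IsRegular (T := Ltr α) {w | IsST w} := by
  refine reg_of_map (T := Set (α → Bool)) (fun w => {σ | Run (fun _ => false) w σ}) ?_
  intro w w' e z hz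
  obtain ⟨σ, h1, h2⟩ := (run_append _ _ _ _).1 ((isST_iff _).1 hz)
  have h1 : σ ∈ {σ | Run (fun _ => false) w σ} := h1
  have e : {σ | Run (fun _ => false) w σ} = {σ | Run (fun _ => false) w' σ} := e
  rw [e] at h1
  exact (isST_iff _).2 ((run_append _ _ _ _).2 ⟨σ, h1, h2⟩)

theorem reg_lang {α : Type} [Finite α] [DecidableEq α] (e : GExpr α) : e.lang.IsRegular := by
  induction e with
  | eps => exact reg_eps
  | act a => exact reg_two _ _
  | seq e f ihe ihf => exact reg_mul ihe ihf
  | alt e f ihe ihf => exact ihe.add ihf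
  | conj e f ihe ihf => exact ihe.inf ihf
  | par e f ihe ihf =>
    have := (reg_ST (α := α)).inf (reg_shuf ihe ihf)
    exact this
  | star e ihe => exact reg_star ihe

theorem pieceA : PieceA := fun e => reg_lang e

/-- the negative answer, over two actions -/
theorem final : LL.IsRegular ∧ (∀ w ∈ LL, IsST w) ∧ ThetaClosed LL ∧
    ∀ e : GExpr Bool, e.lang ≠ LL :=
  ⟨pieceC1, fun w hw => ((mem_LL w).1 hw).1, pieceC2, main pieceA pieceC3 pieceC4⟩

end Pool.Agent.T9h25.GS
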