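import Pool.Agent.T9h25.GS.Core4

set_option autoImplicit false

namespace Pool.Agent.T9h25.GS

open Relation

/-- finitely many left quotients, from a map to a finite type -/
theorem fin_of_map {β T : Type} [Finite T] {K : Language β} (S : List β → T)
    (h : ∀ w w', S w = S w' → ∀ z, w ++ z ∈ K → w' ++ z ∈ K) :
    (Set.range K.leftQuotient).Finite := by
  classical
  have h' : ∀ w w', S w = S w' → K.leftQuotient w = K.leftQuotient w' := by
    intro w w' e
    ext z
    exact ⟨h w w' e z, h w' w e.symm z⟩
  let g : T → Language β := fun t =>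
    if ht : ∃ w, S w = t then K.leftQuotient ht.choose else 0
  refine (Set.finite_range g).subset ?_
  rintro _ ⟨w, rfl⟩
  refine ⟨S w, ?_⟩
  have ht : ∃ w', S w' = S w := ⟨w, rfl⟩
  simp only [g, dif_pos ht]
  exact h' _ _ ht.choose_spec

def Badp (u : List (Ltr Bool)) : Prop :=
  Active false u ∧ Active true u ∧ Even (u.count (false, false)) ∧ Even (u.count (true, false))

theorem mem_LL (w : List (Ltr Bool)) : w ∈ LL ↔ IsST w ∧ ∀ u v, w = u ++ v → ¬ Badp u := Iff.rfl

theorem active_iff {u : List (Ltr Bool)} {σ : Bool → Bool} (h : Run (fun _ => false) u σ) (x : Bool) :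
    Active x u ↔ σ x = true := by
  have c := run_count h x
  unfold Active
  cases hx : σ x
  · rw [hx] at c; simp at c ⊢; omega
  · rw [hx] at c; simp at c ⊢; omega

theorem pieceC1 : PieceC1 := by
  refine Language.IsRegular.of_finite_range_leftQuotient (fin_of_map (T := Set (Bool → Bool) × Prop ×
    Prop × Prop) (fun w => ({σ | Run (fun _ => false) w σ}, Even (w.count (false, false)),
      Even (w.count (true, false)), ∀ u v, w = u ++ v → ¬ Badp u)) ?_)
  intro w w' e z hz
  simp only [Prod.mk.injEq, eq_iff_iff] at e
  obtain ⟨e1, e2, e3, e4⟩ := e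
  obtain ⟨hst, hp⟩ := (mem_LL _).1 hz
  obtain ⟨σ, h1, h2⟩ := (run_append _ _ _ _).1 ((isST_iff _).1 hst)
  have h1' : Run (fun _ => false) w' σ := by
    have : σ ∈ {σ | Run (fun _ => false) w σ} := h1
    rw [e1] at this
    exact this
  refine (mem_LL _).2 ⟨(isST_iff _).2 ((run_append _ _ _ _).2 ⟨σ, h1', h2⟩), ?_⟩
  intro u v huv hbad
  rcases List.append_eq_append_iff.1 huv with ⟨c, h3, h4⟩ | ⟨c, h3, h4⟩
  · -- u = w' ++ c
    refine hp (w ++ c) v (by rw [h4, List.append_assoc]) ?_
    rw [h3] at hbad
    obtain ⟨b1, b2, b3, b4⟩ := hbad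
    have k0 := run_count h1 false
    have k1 := run_count h1 true
    have k0' := run_count h1' false
    have k1' := run_count h1' true
    unfold Badp Active at *
    rw [List.count_append, List.count_append] at b1 b2
    rw [List.count_append] at b3 b4
    rw [Nat.even_add] at b3 b4
    refine ⟨?_, ?_, ?_, ?_⟩
    · rw [List.count_append, List.count_append]; omega
    · rw [List.count_append, List.count_append]; omega
    · rw [List.count_append, Nat.even_add, e2]; exact b3
    · rw [List.count_append, Nat.even_add, e3]; exact b4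
  · -- w' = u ++ c
    exact (e4.1 (fun a b hab => hp a (b ++ z) (by rw [hab, List.append_assoc]))) u c h3 hbad

theorem pieceC2 : PieceC2 := by
  intro w w' hw hs
  obtain ⟨hst, hp⟩ := (mem_LL _).1 hw
  have hst' : IsST w' := (isST_iff _).2 (((isST_iff _).1 hst).step hs)
  refine (mem_LL _).2 ⟨hst', ?_⟩
  intro u v huv hbad
  obtain ⟨p, r, l, m, hr⟩ := hs
  rcases List.append_eq_append_iff.1 huv with ⟨c, h3, h4⟩ | ⟨c, h3, h4⟩
  · -- u = p ++ c, m :: l :: r = c ++ v
    match c, h3, h4 with
    | [], h3, h4 =>
      rw [List.append_nil] at h3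
      exact hp p (l :: m :: r) rfl (by rw [← h3]; exact hbad)
    | [c1], h3, h4 =>
      simp only [List.cons_append, List.nil_append, List.cons.injEq] at h4
      obtain ⟨rfl, h4⟩ := h4
      have hrun := (isST_iff _).1 hst'
      obtain ⟨σ, h5, h6⟩ := (run_append _ _ _ _).1 hrun
      obtain ⟨h7, h8, h9⟩ := h6
      have hu : Run (fun _ => false) u (Function.update σ m.1 (!m.2)) := by
        rw [h3, run_append]
        exact ⟨σ, h5, h7, rfl⟩
      have ha : ∀ x, Function.update σ m.1 (!m.2) x = true := by
        intro x
        cases x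
        · exact (active_iff hu false).1 hbad.1
        · exact (active_iff hu true).1 hbad.2.1
      have hm := ha m.1
      rw [Function.update_self] at hm
      have hm2 : m.2 = false := by simpa using hm
      have hl := ha l.1
      rw [h8] at hl
      rcases hr.2 with h | ⟨h, h'⟩
      · rw [hl, hm2] at h; simp at h
      · rw [h'] at hm2; simp at hm2
    | c1 :: c2 :: c3, h3, h4 =>
      simp only [List.cons_append, List.cons.injEq] at h4
      obtain ⟨rfl, rfl, h4⟩ := h4
      refine hp (p ++ l :: m :: c3) v (by rw [h4]; simp) ?_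
      rw [h3] at hbad
      unfold Badp Active at *
      simp only [List.count_append, List.count_cons] at hbad ⊢
      obtain ⟨b1, b2, b3, b4⟩ := hbad
      refine ⟨by omega, by omega, ?_, ?_⟩
      · convert b3 using 1; omega
      · convert b4 using 1; omega
  · exact hp u (c ++ l :: m :: r) (by rw [h3, List.append_assoc]) hbad

/-- no bad moment when `w` is read from the state `σ` with `na`, `nb` starts before -/
def Safe (σ : Bool → Bool) (na nb : ℕ) (w : List (Ltr Bool)) : Prop :=
  ∀ a d s, w = a ++ d → Run σ a s → s false = true → s true = true →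
    ¬ (Even (na + a.count (false, false)) ∧ Even (nb + a.count (true, false)))

theorem Safe.append {σ σ' : Bool → Bool} {na nb : ℕ} {w w' : List (Ltr Bool)}
    (h : Safe σ na nb w) (hr : Run σ w σ')
    (h' : Safe σ' (na + w.count (false, false)) (nb + w.count (true, false)) w') :
    Safe σ na nb (w ++ w') := by
  intro a d s he hs ha hb
  rcases List.append_eq_append_iff.1 he with ⟨c, h3, h4⟩ | ⟨c, h3, h4⟩
  · rw [h3] at hs
    obtain ⟨m, h5, h6⟩ := (run_append _ _ _ _).1 hs
    rw [run_det h5 hr] at h6
    have := h' c d s h4 h6 ha hb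
    rw [h3, List.count_append, List.count_append, ← Nat.add_assoc, ← Nat.add_assoc]
    exact this
  · exact h a c s h3 hs ha hb

theorem safe_b {σ : Bool → Bool} {na nb : ℕ} {w : List (Ltr Bool)} (h : ¬ Even nb)
    (hw : w.count (true, false) = 0) : Safe σ na nb w := by
  intro a d s he _ _ _ hE
  have : a.count (true, false) = 0 := by
    rw [he, List.count_append] at hw
    omega
  rw [this, Nat.add_zero] at hE
  exact h hE.2

theorem safe_a {σ : Bool → Bool} {na nb : ℕ} {w : List (Ltr Bool)} (h : ¬ Even na)
    (hw : w.count (false, false) = 0) : Safe σ na nb w := by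
  intro a d s he _ _ _ hE
  have : a.count (false, false) = 0 := by
    rw [he, List.count_append] at hw
    omega
  rw [this, Nat.add_zero] at hE
  exact h hE.1

theorem safe_BB {N na nb : ℕ} (hN : Even N) (ha : ¬ Even na) (hb : ¬ Even nb) :
    Safe (fun _ => true) na nb (BB N) := by
  have e1 : xx.count ((true, false) : Ltr Bool) = 0 := by decide
  have e2 : xx.count ((false, false) : Ltr Bool) = 1 := by decide
  have e3 : yy.count ((true, false) : Ltr Bool) = 1 := by decide
  have e4 : yy.count ((false, false) : Ltr Bool) = 0 := by decide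
  have hx : (pw N xx).count ((true, false) : Ltr Bool) = 0 := by rw [pw_count, e1]; omega
  have hx' : (pw N xx).count ((false, false) : Ltr Bool) = N := by rw [pw_count, e2]; omega
  refine (safe_b hb hx).append (run_xx.pw N) ?_
  rw [hx, hx', Nat.add_zero]
  have ha' : ¬ Even (na + N) := by rw [Nat.even_add]; tauto
  refine (safe_a ha' e4).append run_yy ?_
  rw [e3, e4, Nat.add_zero]
  refine (safe_a ha' e4).append run_yy ?_
  rw [e3, e4, Nat.add_zero]
  have hb' : ¬ Even (nb + 1 + 1) := by
    rw [Nat.even_add_one, Nat.even_add_one]; tauto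
  exact safe_b hb' hx

theorem safe_BBs {N : ℕ} (hN : Even N) (m : ℕ) : ∀ {na nb : ℕ}, ¬ Even na → ¬ Even nb →
    Safe (fun _ => true) na nb (pw m (BB N)) := by
  induction m with
  | zero => intro na nb _ hb; exact safe_b hb (by simp [pw_zero])
  | succ m ih =>
    intro na nb ha hb
    rw [pw_succ]
    refine (safe_BB hN ha hb).append (run_BB N) (ih ?_ ?_)
    · rw [BB_count_a, Nat.even_add]
      have : Even (2 * N) := even_two_mul N
      tauto
    · rw [BB_count_b, Nat.even_add]
      have : Even 2 := even_two
      tauto

theorem pieceC3 : PieceC3 := by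
  intro N m hN
  have hrun : Run (fun _ => false) (SS ++ (pw m (BB N) ++ TT)) (fun _ => false) :=
    run_SS.app (((run_BB N).pw m).app run_TT)
  refine (mem_LL _).2 ⟨(isST_iff _).2 hrun, ?_⟩
  have hsafe : Safe (fun _ => false) 0 0 (SS ++ (pw m (BB N) ++ TT)) := by
    have hSS : Safe (fun _ => false) 0 0 SS := by
      intro a d s he hr ha hb
      match a, he, hr with
      | [], _, hr =>
        simp only [Run] at hr
        rw [← hr] at ha
        exact absurd ha (by simp)
      | [a1], he, hr =>
        simp only [SS, List.cons_append, List.nil_append, List.cons.injEq] at he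
        obtain ⟨rfl, _⟩ := he
        obtain ⟨_, hr⟩ := hr
        simp only [Run] at hr
        rw [← hr] at hb
        simp at hb
      | [a1, a2], he, hr =>
        simp only [SS, List.cons_append, List.nil_append, List.cons.injEq] at he
        obtain ⟨rfl, rfl, _⟩ := he
        decide
      | a1 :: a2 :: a3 :: a4, he, hr =>
        exfalso
        have := congrArg List.length he
        simp [SS] at this
    refine hSS.append run_SS ?_
    have c1 : 0 + SS.count ((false, false) : Ltr Bool) = 1 := by decide
    have c2 : 0 + SS.count ((true, false) : Ltr Bool) = 1 := by decide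
    rw [c1, c2]
    refine (safe_BBs hN m (by decide) (by decide)).append ((run_BB N).pw m) ?_
    refine safe_b ?_ (by decide)
    rw [pw_count, BB_count_b, Nat.even_add]
    have : Even (m * 2) := ⟨m, by ring⟩
    have h1 : ¬ Even 1 := by decide
    tauto
  intro u v huv hbad
  have hu := hrun
  rw [huv] at hu
  obtain ⟨σ, h1, _⟩ := (run_append _ _ _ _).1 hu
  refine hsafe u v σ huv h1 ((active_iff h1 false).1 hbad.1) ((active_iff h1 true).1 hbad.2.1) ?_
  rw [Nat.zero_add, Nat.zero_add]
  exact hbad.2.2

theorem pieceC4 : PieceC4 := by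
  intro N M T m R _ hM hmem
  obtain ⟨_, hp⟩ := (mem_LL _).1 hmem
  refine hp (SS ++ (pw m (BB N) ++ (TT ++ (pw M aa ++ [(false, false), (true, false)]))))
    ([(false, true), (true, true)] ++ (pw (T - 1) (pw M aa ++ bb) ++ pw (2 * M - 1) aa ++
      (QQ N ++ R))) ?_ ?_
  · simp [DD, CC, SQ, List.append_assoc]
  · have c1 : SS.count ((false, false) : Ltr Bool) = 1 := by decide
    have c2 : SS.count ((false, true) : Ltr Bool) = 0 := by decide
    have c3 : SS.count ((true, false) : Ltr Bool) = 1 := by decide
    have c4 : SS.count ((true, true) : Ltr Bool) = 0 := by decide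
    have d1 : TT.count ((false, false) : Ltr Bool) = 0 := by decide
    have d2 : TT.count ((false, true) : Ltr Bool) = 1 := by decide
    have d3 : TT.count ((true, false) : Ltr Bool) = 0 := by decide
    have d4 : TT.count ((true, true) : Ltr Bool) = 1 := by decide
    have a1 : aa.count ((false, false) : Ltr Bool) = 1 := by decide
    have a2 : aa.count ((false, true) : Ltr Bool) = 1 := by decide
    have a3 : aa.count ((true, false) : Ltr Bool) = 0 := by decide
    have a4 : aa.count ((true, true) : Ltr Bool) = 0 := by decide
    have x1 : xx.count ((false, false) : Ltr Bool) = 1 := by decide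
    have x2 : xx.count ((false, true) : Ltr Bool) = 1 := by decide
    have x3 : xx.count ((true, false) : Ltr Bool) = 0 := by decide
    have x4 : xx.count ((true, true) : Ltr Bool) = 0 := by decide
    have y1 : yy.count ((false, false) : Ltr Bool) = 0 := by decide
    have y2 : yy.count ((false, true) : Ltr Bool) = 0 := by decide
    have y3 : yy.count ((true, false) : Ltr Bool) = 1 := by decide
    have y4 : yy.count ((true, true) : Ltr Bool) = 1 := by decide
    have s1 : List.count ((false, false) : Ltr Bool) [(false, false), (true, false)] = 1 := by decide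
    have s2 : List.count ((false, true) : Ltr Bool) [(false, false), (true, false)] = 0 := by decide
    have s3 : List.count ((true, false) : Ltr Bool) [(false, false), (true, false)] = 1 := by decide
    have s4 : List.count ((true, true) : Ltr Bool) [(false, false), (true, false)] = 0 := by decide
    unfold Badp Active
    simp only [List.count_append, pw_count, BB, c1, c2, c3, c4, d1, d2, d3, d4, a1, a2, a3, a4,
      x1, x2, x3, x4, y1, y2, y3, y4, s1, s2, s3, s4]
    refine ⟨by ring, by ring, ?_, ?_⟩
    · obtain ⟨k, hk⟩ := hM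
      exact ⟨1 + m * N + k, by rw [hk]; ring⟩
    · exact ⟨1 + m, by ring⟩

end Pool.Agent.T9h25.GS
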