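import Pool.Agent.T9h25.GS.Words

set_option autoImplicit false

namespace Pool.Agent.T9h25.GS

open Relation

variable {α : Type}

/-! ### Shuffles -/

theorem Shuf.symm {u v w : List (Ltr α)} (h : Shuf u v w) : Shuf v u w := by
  induction h with
  | nil => exact .nil
  | left l _ ih => exact .right l ih
  | right l _ ih => exact .left l ih

theorem Shuf.nil_right (u : List (Ltr α)) : Shuf u [] u := by
  induction u with
  | nil => exact .nil
  | cons l u ih => exact .left l ih

theorem Shuf.nil_left (u : List (Ltr α)) : Shuf [] u u := (Shuf.nil_right u).symm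

theorem Shuf.append {u v w u' v' w' : List (Ltr α)} (h : Shuf u v w) (h' : Shuf u' v' w') :
    Shuf (u ++ u') (v ++ v') (w ++ w') := by
  induction h with
  | nil => simpa using h'
  | left l _ ih => exact .left l ih
  | right l _ ih => exact .right l ih

theorem Shuf.split {w1 w2 u v : List (Ltr α)} (h : Shuf u v (w1 ++ w2)) :
    ∃ u1 u2 v1 v2, u = u1 ++ u2 ∧ v = v1 ++ v2 ∧ Shuf u1 v1 w1 ∧ Shuf u2 v2 w2 := by
  induction w1 generalizing u v with
  | nil => exact ⟨[], u, [], v, rfl, rfl, .nil, h⟩
  | cons l w1 ih =>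
    rw [List.cons_append] at h
    cases h with
    | left _ h =>
      obtain ⟨u1, u2, v1, v2, rfl, rfl, h1, h2⟩ := ih h
      exact ⟨l :: u1, u2, v1, v2, rfl, rfl, .left l h1, h2⟩
    | right _ h =>
      obtain ⟨u1, u2, v1, v2, rfl, rfl, h1, h2⟩ := ih h
      exact ⟨u1, u2, l :: v1, v2, rfl, rfl, .right l h1, h2⟩

theorem Shuf.count [DecidableEq α] {u v w : List (Ltr α)} (h : Shuf u v w) (l : Ltr α) :
    w.count l = u.count l + v.count l := by
  induction h with
  | nil => simp
  | left m _ ih => simp only [List.count_cons, ih]; omega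
  | right m _ ih => simp only [List.count_cons, ih]; omega

theorem Shuf.eq_of_nil_right {u w : List (Ltr α)} (h : Shuf u [] w) : w = u := by
  induction w generalizing u with
  | nil => cases h; rfl
  | cons l w ih =>
    cases h with
    | left _ h => rw [ih h]

theorem Shuf.eq_of_nil_left {u w : List (Ltr α)} (h : Shuf [] u w) : w = u := h.symm.eq_of_nil_right

theorem Shuf.nil_iff {u v : List (Ltr α)} (h : Shuf u v []) : u = [] ∧ v = [] := by
  cases h; exact ⟨rfl, rfl⟩

theorem Shuf.singleton {u v : List (Ltr α)} {l : Ltr α} (h : Shuf u v [l]) :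
    (u = [l] ∧ v = []) ∨ (u = [] ∧ v = [l]) := by
  cases h with
  | left _ h => obtain ⟨rfl, rfl⟩ := h.nil_iff; exact Or.inl ⟨rfl, rfl⟩
  | right _ h => obtain ⟨rfl, rfl⟩ := h.nil_iff; exact Or.inr ⟨rfl, rfl⟩

theorem Shuf.pw {u v w : List (Ltr α)} (h : Shuf u v w) (n : ℕ) :
    Shuf (pw n u) (GS.pw n v) (GS.pw n w) := by
  induction n with
  | zero => exact .nil
  | succ n ih => simpa [GS.pw, List.replicate_succ] using h.append ih

/-! ### Rewriting -/

theorem Step.ctx {u v : List (Ltr α)} (h : Step u v) (p r : List (Ltr α)) :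
    Step (p ++ u ++ r) (p ++ v ++ r) := by
  obtain ⟨p', r', l, m, h⟩ := h
  have := Step.mk (p ++ p') (r' ++ r) l m h
  simpa [List.append_assoc] using this

/-- many steps -/
abbrev Red (u v : List (Ltr α)) : Prop := ReflTransGen Step u v

theorem Red.ctx {u v : List (Ltr α)} (h : Red u v) (p r : List (Ltr α)) :
    Red (p ++ u ++ r) (p ++ v ++ r) := by
  induction h with
  | refl => exact .refl
  | tail _ h ih => exact ih.tail (h.ctx p r)

theorem Red.left {u v : List (Ltr α)} (h : Red u v) (p : List (Ltr α)) : Red (p ++ u) (p ++ v) := by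
  simpa using h.ctx p []

theorem Red.right {u v : List (Ltr α)} (h : Red u v) (r : List (Ltr α)) : Red (u ++ r) (v ++ r) := by
  simpa using h.ctx [] r

theorem Red.append {u v u' v' : List (Ltr α)} (h : Red u v) (h' : Red u' v') :
    Red (u ++ u') (v ++ v') := (h.right u').trans (h'.left v)

theorem ThetaClosed.red {L : Language (Ltr α)} (hL : ThetaClosed L) {u v : List (Ltr α)}
    (h : Red u v) (hu : u ∈ L) : v ∈ L := by
  induction h with
  | refl => exact hu
  | tail _ h ih => exact hL _ _ ih h

theorem Shuf.cons_cons_split {u v w : List (Ltr α)} {l m : Ltr α} (h : Shuf u v (l :: m :: w))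
    (hr : Rule l m) :
    ∃ u' v', Shuf u' v' (m :: l :: w) ∧ Red u u' ∧ Red v v' := by
  cases h with
  | left _ h =>
    cases h with
    | left _ h =>
      exact ⟨_, _, .left m (.left l h), .single (Step.mk [] _ l m hr), .refl⟩
    | right _ h => exact ⟨_, _, .right m (.left l h), .refl, .refl⟩
  | right _ h =>
    cases h with
    | left _ h => exact ⟨_, _, .left m (.right l h), .refl, .refl⟩
    | right _ h =>
      exact ⟨_, _, .right m (.right l h), .refl, .single (Step.mk [] _ l m hr)⟩

theorem Shuf.step {u v w w' : List (Ltr α)} (h : Shuf u v w) (hs : Step w w') :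
    ∃ u' v', Shuf u' v' w' ∧ Red u u' ∧ Red v v' := by
  obtain ⟨p, r, l, m, hr⟩ := hs
  obtain ⟨u1, u2, v1, v2, rfl, rfl, h1, h2⟩ := h.split
  obtain ⟨u', v', h3, hu, hv⟩ := h2.cons_cons_split hr
  exact ⟨u1 ++ u', v1 ++ v', h1.append h3, hu.left _, hv.left _⟩

theorem Shuf.red {u v w w' : List (Ltr α)} (h : Shuf u v w) (hs : Red w w') :
    ∃ u' v', Shuf u' v' w' ∧ Red u u' ∧ Red v v' := by
  induction hs with
  | refl => exact ⟨u, v, h, .refl, .refl⟩
  | tail _ h2 ih =>
    obtain ⟨u', v', h3, hu, hv⟩ := ih
    obtain ⟨u'', v'', h4, hu', hv'⟩ := h3.step h2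
    exact ⟨u'', v'', h4, hu.trans hu', hv.trans hv'⟩

/-! ### Runs -/

section run
variable [DecidableEq α]

/-- `Run s w s'`: reading `w` leads from the set `s` of active actions to `s'`. -/
def Run : (α → Bool) → List (Ltr α) → (α → Bool) → Prop
  | s, [], s' => s = s'
  | s, l :: w, s' => s l.1 = l.2 ∧ Run (Function.update s l.1 (!l.2)) w s'

theorem run_append (s : α → Bool) (u v : List (Ltr α)) (s' : α → Bool) :
    Run s (u ++ v) s' ↔ ∃ m, Run s u m ∧ Run m v s' := by
  induction u generalizing s with
  | nil => simp [Run]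
  | cons l u ih =>
    simp only [List.cons_append, Run, ih]
    constructor
    · rintro ⟨h, m, h1, h2⟩
      exact ⟨m, ⟨h, h1⟩, h2⟩
    · rintro ⟨m, ⟨h, h1⟩, h2⟩
      exact ⟨h, m, h1, h2⟩

theorem run_det {s : α → Bool} {u : List (Ltr α)} {m m' : α → Bool} (h : Run s u m)
    (h' : Run s u m') : m = m' := by
  induction u generalizing s with
  | nil => exact h.symm.trans h'
  | cons l u ih => exact ih h.2 h'.2

/-- alternating words -/
def Alt (x : α) : Bool → List (Ltr α) → Bool → Prop
  | c, [], c' => c = c'
  | c, l :: p, c' => l = (x, c) ∧ Alt x (!c) p c'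

theorem run_iff_alt (s : α → Bool) (w : List (Ltr α)) (s' : α → Bool) :
    Run s w s' ↔ ∀ x, Alt x (s x) (w.filter (fun l => decide (l.1 = x))) (s' x) := by
  induction w generalizing s with
  | nil =>
    simp only [Run, List.filter_nil, Alt]
    exact funext_iff
  | cons l w ih =>
    simp only [Run, ih]
    constructor
    · rintro ⟨h1, h2⟩ x
      by_cases hx : l.1 = x
      · subst hx
        rw [List.filter_cons_of_pos (by simp)]
        have := h2 l.1
        rw [Function.update_self] at this
        refine ⟨Prod.ext rfl h1.symm, ?_⟩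
        rw [h1]; exact this
      · rw [List.filter_cons_of_neg (by simpa using hx)]
        have := h2 x
        rwa [Function.update_of_ne (Ne.symm hx)] at this
    · intro h
      have h1 := h l.1
      rw [List.filter_cons_of_pos (by simp)] at h1
      have h2 : l.2 = s l.1 := congrArg Prod.snd h1.1
      refine ⟨h2.symm, fun x => ?_⟩
      by_cases hx : l.1 = x
      · subst hx
        rw [Function.update_self, h2]
        exact h1.2
      · have := h x
        rw [List.filter_cons_of_neg (by simpa using hx)] at this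
        rwa [Function.update_of_ne (Ne.symm hx)]

theorem alt_iff (x : α) : ∀ p : List (Ltr α), Alt x false p false ↔
    ∃ k : ℕ, p = (List.replicate k [(x, false), (x, true)]).flatten
  | [] => by simp only [Alt, true_iff]; exact ⟨0, rfl⟩
  | [l] => by
    simp only [Alt]
    constructor
    · rintro ⟨_, h⟩; exact absurd h (by simp)
    · rintro ⟨k, hk⟩
      have := congrArg List.length hk
      simp at this
      omega
  | l :: m :: p => by
    simp only [Alt, Bool.not_false, Bool.not_true]
    rw [alt_iff x p]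
    constructor
    · rintro ⟨rfl, rfl, k, rfl⟩
      exact ⟨k + 1, by simp [List.replicate_succ]⟩
    · rintro ⟨k, hk⟩
      cases k with
      | zero => simp at hk
      | succ k =>
        simp only [List.replicate_succ, List.flatten_cons, List.cons_append, List.nil_append,
          List.cons.injEq] at hk
        exact ⟨hk.1, hk.2.1, k, hk.2.2⟩

theorem isST_iff (w : List (Ltr α)) : IsST w ↔ Run (fun _ => false) w (fun _ => false) := by
  rw [run_iff_alt]
  unfold IsST
  exact forall_congr' fun x => (alt_iff x _).symm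

theorem Run.step {s s' : α → Bool} {w w' : List (Ltr α)} (h : Run s w s') (hs : Step w w') :
    Run s w' s' := by
  obtain ⟨p, r, l, m, hr⟩ := hs
  rw [run_append] at h ⊢
  obtain ⟨t, h1, h2⟩ := h
  refine ⟨t, h1, ?_⟩
  obtain ⟨h3, h4, h5⟩ := h2
  rw [Function.update_of_ne (Ne.symm hr.1)] at h4
  refine ⟨h4, ?_, ?_⟩
  · rwa [Function.update_of_ne hr.1]
  · rwa [Function.update_comm hr.1] at h5

theorem Run.red {s s' : α → Bool} {w w' : List (Ltr α)} (h : Run s w s') (hs : Red w w') :
    Run s w' s' := by
  induction hs with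
  | refl => exact h
  | tail _ h2 ih => exact ih.step h2

theorem isST_nil : IsST ([] : List (Ltr α)) := (isST_iff _).2 rfl

theorem IsST.append {u v : List (Ltr α)} (hu : IsST u) (hv : IsST v) : IsST (u ++ v) := by
  rw [isST_iff, run_append]
  exact ⟨_, (isST_iff u).1 hu, (isST_iff v).1 hv⟩

theorem IsST.flatten {L : List (List (Ltr α))} (h : ∀ u ∈ L, IsST u) : IsST L.flatten := by
  induction L with
  | nil => exact isST_nil
  | cons u L ih =>
    rw [List.flatten_cons]
    exact (h u (by simp)).append (ih fun v hv => h v (by simp [hv]))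

theorem IsST.head {m : Ltr α} {r : List (Ltr α)} (h : IsST (m :: r)) : m.2 = false := by
  rw [isST_iff] at h
  exact h.1.symm

theorem IsST.last {l : Ltr α} {p : List (Ltr α)} (h : IsST (p ++ [l])) : l.2 = true := by
  rw [isST_iff, run_append] at h
  obtain ⟨m, _, h1, h2⟩ := h
  have := congrFun h2 l.1
  rw [Function.update_self] at this
  simpa using this

theorem isST_lang (e : GExpr α) : ∀ w ∈ e.lang, IsST w := by
  induction e with
  | eps => rintro w rfl; exact isST_nil
  | act a =>
    rintro w rfl
    rw [isST_iff]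
    refine ⟨rfl, ?_, ?_⟩
    · simp
    · funext x
      by_cases hx : x = a
      · subst hx; simp
      · simp [hx]
  | seq e f ihe ihf =>
    intro w hw
    obtain ⟨u, hu, v, hv, rfl⟩ := Language.mem_mul.1 hw
    exact (ihe u hu).append (ihf v hv)
  | alt e f ihe ihf =>
    intro w hw
    rcases hw with hw | hw
    · exact ihe w hw
    · exact ihf w hw
  | conj e f ihe ihf => intro w hw; exact ihe w hw.1
  | par e f ihe ihf => intro w hw; exact hw.1
  | star e ihe =>
    intro w hw
    obtain ⟨L, rfl, hL⟩ := Language.mem_kstar.1 hw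
    exact IsST.flatten fun u hu => ihe u (hL u hu)

omit [DecidableEq α] in
/-- a step of a product of two words -/
theorem Step.append_cases {u v w : List (Ltr α)} (h : Step (u ++ v) w) :
    (∃ u', Step u u' ∧ w = u' ++ v) ∨ (∃ v', Step v v' ∧ w = u ++ v') ∨
      (∃ p l m r, u = p ++ [l] ∧ v = m :: r ∧ Rule l m) := by
  generalize hx : u ++ v = x at h
  obtain ⟨p, r, l, m, hr⟩ := h
  rcases List.append_eq_append_iff.1 hx with ⟨a, h1, h2⟩ | ⟨a, h1, h2⟩
  · -- p = u ++ a, v = a ++ l :: m :: r
    right; left
    refine ⟨a ++ m :: l :: r, ?_, by rw [h1, List.append_assoc]⟩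
    rw [h2]
    exact Step.mk a r l m hr
  · -- u = p ++ a, l :: m :: r = a ++ v
    match a, h1, h2 with
    | [], h1, h2 =>
      right; left
      refine ⟨m :: l :: r, ?_, by rw [h1, List.append_nil]⟩
      rw [List.nil_append] at h2
      rw [← h2]
      exact Step.mk [] r l m hr
    | [l'], h1, h2 =>
      right; right
      simp only [List.cons_append, List.nil_append, List.cons.injEq] at h2
      obtain ⟨rfl, h2⟩ := h2
      exact ⟨p, l, m, r, h1, h2.symm, hr⟩
    | l' :: m' :: a', h1, h2 =>
      left
      simp only [List.cons_append, List.cons.injEq] at h2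
      obtain ⟨rfl, rfl, rfl⟩ := h2
      refine ⟨p ++ m :: l :: a', ?_, by simp⟩
      rw [h1]
      exact Step.mk p a' l m hr

theorem rule_absurd {p r : List (Ltr α)} {l m : Ltr α} (hr : Rule l m) (h1 : IsST (p ++ [l]))
    (h2 : IsST (m :: r)) : False := by
  have h3 := h1.last
  have h4 := h2.head
  rcases hr.2 with h | ⟨h, _⟩
  · rw [h3, h4] at h; simp at h
  · rw [h3] at h; simp at h

theorem closed_lang (e : GExpr α) : ThetaClosed e.lang := by
  induction e with
  | eps =>
    rintro u v rfl h
    generalize hx : ([] : List (Ltr α)) = x at h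
    obtain ⟨p, r, l, m, hr⟩ := h
    simp at hx
  | act a =>
    rintro u v rfl h
    generalize hx : ([(a, false), (a, true)] : List (Ltr α)) = x at h
    obtain ⟨p, r, l, m, hr⟩ := h
    exfalso
    match p, hx with
    | [], hx =>
      simp only [List.nil_append, List.cons.injEq] at hx
      obtain ⟨rfl, rfl, _⟩ := hx
      exact hr.1 rfl
    | [_], hx => simp at hx
    | _ :: _ :: _, hx => simp at hx
  | seq e f ihe ihf =>
    intro u v hu h
    obtain ⟨a, ha, b, hb, rfl⟩ := Language.mem_mul.1 hu
    rcases h.append_cases with ⟨a', h1, rfl⟩ | ⟨b', h1, rfl⟩ | ⟨p, l, m, r, rfl, rfl, hr⟩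
    · exact Language.mem_mul.2 ⟨a', ihe _ _ ha h1, b, hb, rfl⟩
    · exact Language.mem_mul.2 ⟨a, ha, b', ihf _ _ hb h1, rfl⟩
    · exact absurd (isST_lang f _ hb) fun h => rule_absurd hr (isST_lang e _ ha) h
  | alt e f ihe ihf =>
    intro u v hu h
    rcases hu with hu | hu
    · exact Or.inl (ihe _ _ hu h)
    · exact Or.inr (ihf _ _ hu h)
  | conj e f ihe ihf => exact fun u v hu h => ⟨ihe _ _ hu.1 h, ihf _ _ hu.2 h⟩
  | par e f ihe ihf =>
    rintro u v ⟨h1, a, ha, b, hb, h2⟩ h
    obtain ⟨a', b', h3, h4, h5⟩ := h2.step h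
    refine ⟨(isST_iff _).2 (((isST_iff _).1 h1).step h), a', ihe.red h4 ha, b', ihf.red h5 hb, h3⟩
  | star e ihe =>
    intro u v hu h
    obtain ⟨L, rfl, hL⟩ := Language.mem_kstar.1 hu
    clear hu
    induction L generalizing v with
    | nil =>
      exfalso
      generalize hx : (([] : List (List (Ltr α))).flatten) = x at h
      obtain ⟨p, r, l, m, hr⟩ := h
      simp at hx
    | cons a L ih =>
      rw [List.flatten_cons] at h
      have hL' : ∀ y ∈ L, y ∈ e.lang := fun y hy => hL y (by simp [hy])
      rcases h.append_cases with ⟨a', h1, rfl⟩ | ⟨b', h1, rfl⟩ | ⟨p, l, m, r, h1, h2, hr⟩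
      · refine Language.mem_kstar.2 ⟨a' :: L, by simp, ?_⟩
        intro y hy
        rcases List.mem_cons.1 hy with rfl | hy
        · exact ihe _ _ (hL a (by simp)) h1
        · exact hL' y hy
      · obtain ⟨L', h2, h3⟩ := Language.mem_kstar.1 (ih _ hL' h1)
        refine Language.mem_kstar.2 ⟨a :: L', by simp [h2], ?_⟩
        intro y hy
        rcases List.mem_cons.1 hy with rfl | hy
        · exact hL y (by simp)
        · exact h3 y hy
      · exfalso
        have h3 : IsST a := isST_lang e _ (hL a (by simp))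
        have h4 : IsST L.flatten := IsST.flatten fun u hu => isST_lang e u (hL' u hu)
        rw [h1] at h3
        rw [h2] at h4
        exact rule_absurd hr h3 h4

end run

end Pool.Agent.T9h25.GS
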