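import Pool.Agent.T9h25.GS.Defs

set_option autoImplicit false

namespace Pool.Agent.T9h25.GS

/-- The action `x` is active after `u`. -/
def Active {α : Type} [DecidableEq α] (x : α) (u : List (Ltr α)) : Prop :=
  u.count (x, false) = u.count (x, true) + 1

/-- The two actions are `a = false` and `b = true`. The language of all st-words in which no
`a`-event of even index overlaps a `b`-event of even index: there is no moment (`w = u ++ v`) at
which both actions are active and an even number of each has been started. -/
def LL : Language (Ltr Bool) := {w | IsST w ∧ ∀ u v : List (Ltr Bool), w = u ++ v →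
  ¬ (Active false u ∧ Active true u ∧ Even (u.count (false, false)) ∧ Even (u.count (true, false)))}

/-- powers of a word -/
def pw {β : Type} (n : ℕ) (w : List β) : List β := (List.replicate n w).flatten

def xx : List (Ltr Bool) := [(false, true), (false, false)]
def yy : List (Ltr Bool) := [(true, true), (true, false)]
def aa : List (Ltr Bool) := [(false, false), (false, true)]
def bb : List (Ltr Bool) := [(true, false), (true, true)]
def SS : List (Ltr Bool) := [(false, false), (true, false)]
def TT : List (Ltr Bool) := [(false, true), (true, true)]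
/-- the overlapping pair -/
def SQ : List (Ltr Bool) := [(false, false), (true, false), (false, true), (true, true)]

def BB (N : ℕ) : List (Ltr Bool) := pw N xx ++ (yy ++ (yy ++ pw N xx))
def CC (M T : ℕ) : List (Ltr Bool) :=
  pw M aa ++ (SQ ++ (pw (T - 1) (pw M aa ++ bb) ++ pw (2 * M - 1) aa))
def QQ (N : ℕ) : List (Ltr Bool) := pw N aa ++ (bb ++ (pw (N - 1) aa ++ SS))
def DD (N M T : ℕ) : List (Ltr Bool) := TT ++ (CC M T ++ QQ N)

/-- piece A -/
def PieceA : Prop := ∀ e : GExpr Bool, e.lang.IsRegular
/-- piece C -/
def PieceC1 : Prop := LL.IsRegular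
def PieceC2 : Prop := ThetaClosed LL
def PieceC3 : Prop := ∀ N m : ℕ, Even N → SS ++ (pw m (BB N) ++ TT) ∈ LL
def PieceC4 : Prop := ∀ (N M T m : ℕ) (R : List (Ltr Bool)), Even N → Even M →
  SS ++ (pw m (BB N) ++ (DD N M T ++ R)) ∉ LL

end Pool.Agent.T9h25.GS
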